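import Pool.Agent.H9.Lib.R_seed8.H393R2.CV
import Pool.Agent.H9.Lib.R_seed8.H393R2.L1

set_option autoImplicit false

open Finset

namespace Pool.Agent.H393R2

lemma map_bterm {R S : Type*} [CommRing R] [CommRing S] (f : R →+* S) {n : ℕ} (j1 : Fin n)
    (k : ℕ) (a : Fin n → ℕ) (W : Fin n → R) :
    f (bterm j1 k a W) = bterm j1 k a (fun l => f (W l)) := by
  unfold bterm
  rw [map_mul, map_prod, map_natCast]
  simp only [map_pow]

lemma map_Sk {R S : Type*} [CommRing R] [CommRing S] (f : R →+* S) {m n : ℕ} (r : Fin m → ℕ)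
    (j1 : Fin n) (k : Fin m → ℕ) (c : (Fin m → Fin n → ℕ) → ℤ) (W : Fin m → Fin n → R) :
    f (Sk r j1 k c W) = Sk r j1 k c (fun h l => f (W h l)) := by
  unfold Sk
  rw [map_sum]
  apply Finset.sum_congr rfl
  intro a _
  rw [map_mul, map_prod, map_intCast]
  congr 1
  apply Finset.prod_congr rfl
  intro h _
  rw [map_bterm]

lemma map_dJ {R S : Type*} [CommRing R] [CommRing S] (f : R →+* S) {m n : ℕ} (r : Fin m → ℕ)
    (Y : Fin n) (ξ : R) (c : (Fin m → Fin n → ℕ) → ℤ) (J : Fin m → Fin n → ℕ) :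
    f (dJ r Y ξ c J) = dJ r Y (f ξ) c J := by
  unfold dJ
  rw [map_sum]
  apply Finset.sum_congr rfl
  intro a _
  rw [map_mul, map_prod, map_intCast]
  congr 1
  apply Finset.prod_congr rfl
  intro h _
  rw [map_prod]
  apply Finset.prod_congr rfl
  intro l _
  rw [map_mul, map_pow, map_natCast]

lemma bterm_smul {R : Type*} [CommRing R] {n : ℕ} (j1 : Fin n) (k : ℕ) (a : Fin n → ℕ)
    (W : Fin n → R) (β : R) (e : Fin n → ℕ) :
    bterm j1 k a (fun l => β ^ (e l) * W l) =
      β ^ (∑ l, e l * (a l - if l = j1 then k else 0)) * bterm j1 k a W := by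
  unfold bterm
  rw [← Finset.prod_pow_eq_pow_sum]
  have : ∏ l, (β ^ e l * W l) ^ (a l - if l = j1 then k else 0) =
      (∏ l, β ^ (e l * (a l - if l = j1 then k else 0))) *
        ∏ l, W l ^ (a l - if l = j1 then k else 0) := by
    rw [← Finset.prod_mul_distrib]
    apply Finset.prod_congr rfl
    intro l _
    rw [mul_pow, ← pow_mul]
  rw [this]
  ring

lemma l1_bterm_le {σ : Type*} {n : ℕ} (j1 : Fin n) (k : ℕ) (a : Fin n → ℕ)
    (M : Fin n → MvPolynomial σ ℝ) (B : Fin n → ℝ) (hB : ∀ l, l1 (M l) ≤ B l) :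
    l1 (bterm j1 k a M) ≤ ((a j1).choose k : ℝ) * ∏ l, B l ^ (a l - if l = j1 then k else 0) := by
  unfold bterm
  refine (l1_mul_le _ _).trans ?_
  rw [l1_natCast]
  apply mul_le_mul_of_nonneg_left _ (by positivity)
  refine (l1_prod_le _ _).trans ?_
  apply Finset.prod_le_prod
  · intro l _; exact l1_nonneg _
  · intro l _
    exact (l1_pow_le _ _).trans (pow_le_pow_left₀ (l1_nonneg _) (hB l) _)

theorem Sk_vanish {m n : ℕ} (r : Fin m → ℕ) (Y j1 : Fin n) (hj : j1 ≠ Y) (ξ : ℝ)
    (k : Fin m → ℕ) (c : (Fin m → Fin n → ℕ) → ℤ) (b : ℕ) (hb : 0 < b) (e : Fin m → Fin n → ℕ)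
    (heY : ∀ h, e h Y = 0) (w : Fin m → Fin (n - 1) → Fin n → ℤ) (B : Fin m → Fin n → ℝ)
    (hB : ∀ h l, ∑ i, |((w h i l : ℝ) - (if l = Y then 0 else ξ * (b : ℝ) ^ (e h l) * w h i Y))
      / (b : ℝ) ^ (e h l)| ≤ B h l)
    (E : ℕ) (hE : ∀ a ∈ Dset m n r, c a ≠ 0 → ∑ h, ∑ l, e h l * a h l ≤ E)
    (hsmall : ∑ J ∈ Dset m n r, |dJ r Y ξ c J| * ∏ h, (((J h j1).choose (k h) : ℝ) *
      ∏ l, B h l ^ (J h l - if l = j1 then k h else 0)) < ((b : ℝ) ^ E)⁻¹) :
    ∀ u : Fin m → Fin (n - 1) → ℝ,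
      Sk r j1 k c (fun h l => ∑ i, u h i * ((w h i l : ℝ) / (b : ℝ) ^ (e h l))) = 0 := by
  classical
  have hb' : (b : ℝ) ≠ 0 := by positivity
  let σ := Fin m × Fin (n - 1)
  let Wp : Fin m → Fin n → MvPolynomial σ ℝ := fun h l =>
    ∑ i, MvPolynomial.X (h, i) * MvPolynomial.C ((w h i l : ℝ) / (b : ℝ) ^ (e h l))
  let Mp : Fin m → Fin n → MvPolynomial σ ℝ := fun h l =>
    ∑ i, MvPolynomial.X (h, i) * MvPolynomial.C
      (((w h i l : ℝ) - (if l = Y then 0 else ξ * (b : ℝ) ^ (e h l) * w h i Y))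
      / (b : ℝ) ^ (e h l))
  let Wi : Fin m → Fin n → MvPolynomial σ ℤ := fun h l =>
    ∑ i, MvPolynomial.X (h, i) * MvPolynomial.C (w h i l)
  let F : MvPolynomial σ ℝ := Sk r j1 k c Wp
  have hF : F = 0 := by
    -- bound
    have hbound : l1 F < ((b : ℝ) ^ E)⁻¹ := by
      refine lt_of_le_of_lt ?_ hsmall
      have h1 : F = ∑ J ∈ Dset m n r, dJ r Y (MvPolynomial.C ξ) c J *
          ∏ h, bterm j1 (k h) (J h) (Mp h) := by
        apply Sk_cv r Y j1 hj (MvPolynomial.C ξ) k c Mp Wp
        · intro h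
          simp only [Wp, Mp, if_true, sub_zero]
        · intro h l hl
          simp only [Wp, Mp, if_neg hl, if_true, sub_zero, heY, pow_zero, div_one]
          rw [Finset.mul_sum, ← Finset.sum_add_distrib]
          apply Finset.sum_congr rfl
          intro i _
          rw [show MvPolynomial.C ξ * (MvPolynomial.X (h, i) * MvPolynomial.C (w h i Y : ℝ)) =
            MvPolynomial.X (h, i) * (MvPolynomial.C ξ * MvPolynomial.C (w h i Y : ℝ)) by ring,
            ← mul_add, ← MvPolynomial.C_mul, ← MvPolynomial.C_add]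
          congr 2
          field_simp
          ring
      rw [h1]
      refine (l1_sum_le _ _).trans ?_
      apply Finset.sum_le_sum
      intro J _
      refine (l1_mul_le _ _).trans ?_
      have h2 : dJ r Y (MvPolynomial.C ξ : MvPolynomial σ ℝ) c J =
          MvPolynomial.C (dJ r Y ξ c J) := by
        rw [map_dJ]
      rw [h2, l1_C]
      apply mul_le_mul_of_nonneg_left _ (abs_nonneg _)
      refine (l1_prod_le _ _).trans ?_
      apply Finset.prod_le_prod
      · intro h _; exact l1_nonneg _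
      · intro h _
        apply l1_bterm_le
        intro l
        refine le_trans ?_ (hB h l)
        simp only [Mp]
        refine (l1_sum_le _ _).trans ?_
        apply Finset.sum_le_sum
        intro i _
        refine (l1_mul_le _ _).trans ?_
        rw [l1_X, l1_C, one_mul]
    -- integrality
    let s : (Fin m → Fin n → ℕ) → ℕ := fun a =>
      ∑ h, ∑ l, e h l * (a h l - if l = j1 then k h else 0)
    let G : MvPolynomial σ ℤ := ∑ a ∈ Dset m n r, (c a : MvPolynomial σ ℤ) *
      ((b : MvPolynomial σ ℤ) ^ (E - s a) * ∏ h, bterm j1 (k h) (a h) (Wi h))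
    have hint : MvPolynomial.C ((b : ℝ) ^ E) * F = MvPolynomial.map (Int.castRingHom ℝ) G := by
      simp only [F, G, Sk]
      rw [map_sum, Finset.mul_sum]
      apply Finset.sum_congr rfl
      intro a ha
      by_cases hca : c a = 0
      · simp [hca]
      have hsE : s a ≤ E := by
        refine le_trans ?_ (hE a ha hca)
        apply Finset.sum_le_sum
        intro h _
        apply Finset.sum_le_sum
        intro l _
        exact Nat.mul_le_mul_left _ (Nat.sub_le _ _)
      rw [map_mul, map_mul, map_prod, map_intCast, map_pow, map_natCast]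
      have h3 : ∀ h, MvPolynomial.map (Int.castRingHom ℝ) (bterm j1 (k h) (a h) (Wi h)) =
          (b : MvPolynomial σ ℝ) ^ (∑ l, e h l * (a h l - if l = j1 then k h else 0)) *
            bterm j1 (k h) (a h) (Wp h) := by
        intro h
        rw [map_bterm, ← bterm_smul]
        congr 1
        funext l
        simp only [Wi, Wp]
        rw [map_sum, Finset.mul_sum]
        apply Finset.sum_congr rfl
        intro i _
        rw [map_mul, MvPolynomial.map_X, MvPolynomial.map_C]
        have h4 : (b : MvPolynomial σ ℝ) ^ (e h l) = MvPolynomial.C ((b : ℝ) ^ (e h l)) := by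
          simp
        rw [h4, show MvPolynomial.C ((b : ℝ) ^ (e h l)) * (MvPolynomial.X (h, i) *
          MvPolynomial.C ((w h i l : ℝ) / (b : ℝ) ^ (e h l))) = MvPolynomial.X (h, i) *
          (MvPolynomial.C ((b : ℝ) ^ (e h l)) *
          MvPolynomial.C ((w h i l : ℝ) / (b : ℝ) ^ (e h l))) by ring, ← MvPolynomial.C_mul]
        congr 2
        rw [mul_div_cancel₀ _ (pow_ne_zero _ hb')]
        simp
      rw [Finset.prod_congr rfl (fun h _ => h3 h), Finset.prod_mul_distrib,
        Finset.prod_pow_eq_pow_sum]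
      have h5 : (b : MvPolynomial σ ℝ) ^ E =
          (b : MvPolynomial σ ℝ) ^ (E - s a) * (b : MvPolynomial σ ℝ) ^ (s a) := by
        rw [← pow_add, Nat.sub_add_cancel hsE]
      rw [h5]
      simp only [map_pow, map_natCast]
      simp only [s]
      ring
    ext κ
    have h6 : (b : ℝ) ^ E * F.coeff κ = ((G.coeff κ : ℤ) : ℝ) := by
      have := congrArg (MvPolynomial.coeff κ) hint
      rw [MvPolynomial.coeff_C_mul, MvPolynomial.coeff_map] at this
      simpa using this
    have h7 : |F.coeff κ| < ((b : ℝ) ^ E)⁻¹ := lt_of_le_of_lt (abs_coeff_le_l1 F κ) hbound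
    have hbE : (0 : ℝ) < (b : ℝ) ^ E := by positivity
    have h8 : |((G.coeff κ : ℤ) : ℝ)| < 1 := by
      rw [← h6, abs_mul, abs_of_pos hbE]
      calc (b : ℝ) ^ E * |F.coeff κ| < (b : ℝ) ^ E * ((b : ℝ) ^ E)⁻¹ :=
            mul_lt_mul_of_pos_left h7 hbE
        _ = 1 := mul_inv_cancel₀ hbE.ne'
    have h9 : G.coeff κ = 0 := by
      rw [← Int.cast_abs] at h8
      have : |G.coeff κ| < 1 := by exact_mod_cast h8
      exact Int.abs_lt_one_iff.1 this
    rw [h9, Int.cast_zero] at h6
    have h10 : F.coeff κ = 0 := by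
      rcases mul_eq_zero.1 h6 with h | h
      · exact absurd h hbE.ne'
      · exact h
    rw [h10, MvPolynomial.coeff_zero]
  intro u
  have h1 := congrArg (MvPolynomial.eval (fun x : σ => u x.1 x.2)) hF
  simp only [F] at h1
  rw [map_Sk, map_zero] at h1
  rw [← h1]
  congr 1
  funext h l
  simp only [Wp]
  rw [map_sum]
  apply Finset.sum_congr rfl
  intro i _
  simp

end Pool.Agent.H393R2
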