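import Mathlib
import Pool.Agent.H9.Lib.R_seed8.H393R2.CV
import Pool.Agent.H9.Lib.R_seed8.H393R2.Vanish
import Pool.Agent.H9.Lib.R_seed8.H393R2.Reduce
import Pool.Agent.H9.Lib.R_seed8.H393R2.LinAlg
import Pool.Agent.H9.Lib.R_seed8.H393R2.Est

set_option autoImplicit false

open Finset

namespace Pool.Agent.H393R2

/-- statement of the auxiliary polynomial construction -/
def AuxPolyStmt : Prop :=
  ∀ (n : ℕ) (_ : 1 ≤ n) (Y : Fin n) (ξ : ℝ) (_ : IsIntegral ℤ ξ) (τ : ℝ)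
    (_ : 0 < τ),
    ∃ C : ℝ, 1 ≤ C ∧ ∃ m0 : ℕ, ∀ m : ℕ, m0 ≤ m → ∀ r : Fin m → ℕ, (∀ h, 0 < r h) →
      ∃ c : (Fin m → Fin n → ℕ) → ℤ,
        (∃ a ∈ Dset m n r, c a ≠ 0) ∧
        (∀ a ∈ Dset m n r, |(c a : ℝ)| ≤ C ^ (∑ h, r h)) ∧
        (∀ a ∈ Dset m n r, c a ≠ 0 → ∀ l : Fin n,
          ∑ h, (a h l : ℝ) / (r h : ℝ) ≤ (1 / (n : ℝ) + τ) * m) ∧
        (∀ J ∈ Dset m n r,
          (∃ l : Fin n, ∑ h, (J h l : ℝ) / (r h : ℝ) < (1 / (n : ℝ) - τ) * m) →
          ∑ a ∈ Dset m n r, (c a : ℝ) * ∏ h : Fin m, ∏ l ∈ (Finset.univ : Finset (Fin n)).erase Y,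
            (((a h l).choose (J h l) : ℝ) * ξ ^ (a h l - J h l)) = 0)

/-- statement of Roth's lemma -/
def RothStmt : Prop :=
  ∀ (m : ℕ) (σ : ℝ) (_ : 0 < σ),
    ∃ ω : ℝ, 0 < ω ∧
      ∀ (r : Fin m → ℕ) (R : ℝ), 0 < m → (∀ h, 0 < r h) →
        (∀ i j : Fin m, i < j → (r j : ℝ) ≤ ω * r i) → (∀ h, (r h : ℝ) ≤ ω * R) →
        ∀ (p q : Fin m → ℤ), (∀ h, IsCoprime (p h) (q h)) → (∀ h, q h ≠ 0) →
          (∀ h, R ≤ r h * Real.log (max |(p h : ℝ)| |(q h : ℝ)|)) →
          ∀ c : (Fin m → ℕ) → ℤ,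
            (∃ a ∈ Fintype.piFinset (fun h => Finset.range (r h + 1)), c a ≠ 0) →
            (∀ a ∈ Fintype.piFinset (fun h => Finset.range (r h + 1)),
              |(c a : ℝ)| ≤ Real.exp (ω * R)) →
            ∃ k : Fin m → ℕ, (∑ h, (k h : ℝ) / (r h : ℝ) < σ) ∧
              ∑ a ∈ Fintype.piFinset (fun h => Finset.range (r h + 1)),
                (c a : ℝ) * ∏ h, (((a h).choose (k h) : ℝ) *
                  ((p h : ℝ) / (q h : ℝ)) ^ (a h - k h)) ≠ 0

/-- choose a good `τ` -/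
lemma exists_tau (K γ : ℝ) (hK : 0 < K) (hγ : 0 < γ) : ∃ τ : ℝ, 0 < τ ∧ τ ≤ 1 / 2 ∧
    τ * K ≤ γ := by
  refine ⟨min (1 / 2) (γ / K), ?_, min_le_left _ _, ?_⟩
  · apply lt_min (by norm_num); positivity
  · calc min (1 / 2) (γ / K) * K ≤ γ / K * K :=
        mul_le_mul_of_nonneg_right (min_le_right _ _) hK.le
      _ = γ := by field_simp

/-- choose degrees -/
lemma exists_degrees {m : ℕ} (hm : 0 < m) (N : Fin m → ℝ) (hN : ∀ h, 0 < N h) (τ : ℝ)
    (hτ : 0 < τ) (hτ1 : τ ≤ 1 / 2) :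
    ∃ (R0 : ℝ) (r : Fin m → ℕ), 0 < R0 ∧ (∀ h, 0 < r h) ∧
      (∀ h, (1 - τ) * R0 ≤ r h * N h) ∧ (∀ h, r h * N h ≤ R0) := by
  have hS : 0 < ∑ h, N h := Finset.sum_pos (fun h _ => hN h) ⟨⟨0, hm⟩, Finset.mem_univ _⟩
  have hle : ∀ h, N h ≤ ∑ h, N h := fun h =>
    Finset.single_le_sum (f := N) (fun i _ => (hN i).le) (Finset.mem_univ h)
  set R0 : ℝ := (∑ h, N h) / τ with hR0
  have hR0p : 0 < R0 := by positivity
  have hNR : ∀ h, N h ≤ τ * R0 := by
    intro h
    have : τ * R0 = ∑ h, N h := by rw [hR0]; field_simp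
    rw [this]; exact hle h
  have h1 : ∀ h, (1 - τ) * R0 < (⌊R0 / N h⌋₊ : ℝ) * N h := by
    intro h
    have := Nat.lt_floor_add_one (R0 / N h)
    rw [div_lt_iff₀ (hN h)] at this
    have h2 := hNR h
    nlinarith
  refine ⟨R0, fun h => ⌊R0 / N h⌋₊, hR0p, ?_, fun h => (h1 h).le, ?_⟩
  · intro h
    have h3 := h1 h
    by_contra hcon
    have h4 : ⌊R0 / N h⌋₊ = 0 := by
      simp only [not_lt, Nat.le_zero] at hcon
      exact hcon
    rw [h4] at h3
    simp at h3
    nlinarith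
  · intro h
    have := Nat.floor_le (show 0 ≤ R0 / N h by have := hN h; positivity)
    rw [le_div_iff₀ (hN h)] at this
    exact this

theorem codim_one_core (hAux : AuxPolyStmt) (hRoth : RothStmt) (n' : ℕ) (hn : 1 ≤ n') (b : ℕ)
    (hb : 2 ≤ b) (ξ : ℝ) (hξ : IsIntegral ℤ ξ)
    (Y j1 j2 : Fin (n' + 1)) (hj1 : j1 ≠ Y) (hj12 : j1 ≠ j2) (c γ : ℝ) (hc : 1 ≤ c) (hγ : 0 < γ)
    -- here `N` is the logarithmic height
    (N : ℕ → ℝ) (hN : Filter.Tendsto N Filter.atTop Filter.atTop) (hN0 : ∀ t, 0 < N t)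
    (e : ℕ → Fin (n' + 1) → ℕ) (heY : ∀ t, e t Y = 0)
    (he : ∀ t l, (e t l : ℝ) * Real.log b ≤ c * N t)
    (x : ℕ → Fin (n' + 1) → ℤ) (A : ℕ → Fin (n' + 1) → ℝ) (hApos : ∀ t l, 0 < A t l)
    (hA : ∀ t l, |-Real.log (A t l)| ≤ c * N t)
    (hprod : ∀ t, γ * N t ≤ ∑ l, -Real.log (A t l))
    (w : ℕ → Fin n' → Fin (n' + 1) → ℤ) (hw : ∀ t, LinearIndependent ℤ (w t))
    (horth : ∀ t i, ∑ l, x t l * w t i l = 0)
    (hbd : ∀ t i l, |(w t i l : ℝ) - (if l = Y then 0 else ξ * (b : ℝ) ^ (e t l) * w t i Y)|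
      ≤ A t l)
    (hx1 : ∀ t, x t j1 ≠ 0) (p q : ℕ → ℤ) (hpq : ∀ t, IsCoprime (p t) (q t))
    (hrat : ∀ t, x t j1 * (b : ℤ) ^ (e t j1) * p t = -(x t j2 * (b : ℤ) ^ (e t j2) * q t))
    (hq0 : ∀ t, q t ≠ 0)
    (hht : ∀ t, N t / c ≤ Real.log (max |(p t : ℝ)| |(q t : ℝ)|)) : False := by
  have hbR : (2 : ℝ) ≤ b := by exact_mod_cast hb
  have hb0 : (0 : ℝ) < b := by linarith
  have hc0 : (0 : ℝ) < c := by linarith
  have hlogb : 0 < Real.log b := Real.log_pos (by linarith)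
  -- compactness
  obtain ⟨⟨α, ε⟩, hmem, φ, hφ, hlim⟩ : ∃ a ∈ (Set.pi Set.univ (fun _ : Fin (n' + 1) =>
      Set.Icc (-c) c)) ×ˢ (Set.pi Set.univ (fun _ : Fin (n' + 1) => Set.Icc (0 : ℝ) c)),
      ∃ φ : ℕ → ℕ, StrictMono φ ∧
        Filter.Tendsto ((fun t => ((fun l => -Real.log (A t l) / N t), (fun l =>
          (e t l : ℝ) * Real.log b / N t)) :
          ℕ → (Fin (n' + 1) → ℝ) × (Fin (n' + 1) → ℝ)) ∘ φ) Filter.atTop (nhds a) := by
    apply IsCompact.tendsto_subseq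
    · apply IsCompact.prod
      · exact isCompact_univ_pi (fun _ => isCompact_Icc)
      · exact isCompact_univ_pi (fun _ => isCompact_Icc)
    · intro t
      refine ⟨?_, ?_⟩
      · intro l _
        have h1 := abs_le.mp (hA t l)
        simp only [Set.mem_Icc]
        constructor
        · rw [le_div_iff₀ (hN0 t)]; linarith [h1.1]
        · rw [div_le_iff₀ (hN0 t)]; linarith [h1.2]
      · intro l _
        simp only [Set.mem_Icc]
        constructor
        · have := hN0 t; positivity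
        · rw [div_le_iff₀ (hN0 t)]; exact he t l
  have hα : ∀ l, |α l| ≤ c := by
    intro l
    have := hmem.1 l (Set.mem_univ _)
    simp only [Set.mem_Icc] at this
    exact abs_le.mpr this
  have hε : ∀ l, 0 ≤ ε l ∧ ε l ≤ c := by
    intro l
    have := hmem.2 l (Set.mem_univ _)
    simpa only [Set.mem_Icc] using this
  have hlim1 : ∀ l, Filter.Tendsto (fun t => -Real.log (A (φ t) l) / N (φ t)) Filter.atTop
      (nhds (α l)) := by
    intro l
    have h1 := (continuous_fst.tendsto _).comp hlim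
    exact (continuous_apply l).continuousAt.tendsto.comp h1
  have hlim2 : ∀ l, Filter.Tendsto (fun t => (e (φ t) l : ℝ) * Real.log b / N (φ t))
      Filter.atTop (nhds (ε l)) := by
    intro l
    have h1 := (continuous_snd.tendsto _).comp hlim
    exact (continuous_apply l).continuousAt.tendsto.comp h1
  have hγα : γ ≤ ∑ l, α l := by
    have h1 : Filter.Tendsto (fun t => ∑ l, -Real.log (A (φ t) l) / N (φ t)) Filter.atTop
      (nhds (∑ l, α l)) := tendsto_finset_sum _ (fun l _ => hlim1 l)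
    apply ge_of_tendsto' h1
    intro t
    rw [← Finset.sum_div, le_div_iff₀ (hN0 _)]
    exact hprod _
  -- choice of τ
  obtain ⟨τ, hτ0, hτ12, hτγ⟩ := exists_tau
    (((n' + 1 : ℕ) : ℝ) * (2 * c * (((n' + 1 : ℕ) : ℝ) + 2) + 2) + (1 + ((n' + 1 : ℕ) : ℝ) * c
      + ((n' + 1 : ℕ) : ℝ))) (γ / (4 * ((n' + 1 : ℕ) : ℝ))) (by positivity) (by positivity)
  obtain ⟨C, hC, m0, haux⟩ := hAux (n' + 1) (by omega) Y ξ hξ τ hτ0
  set m := max m0 1 with hmdef
  have hm : 0 < m := by omega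
  obtain ⟨ω, hω, hroth⟩ := hRoth m τ hτ0
  -- eventually close
  have hev : ∀ᶠ t in Filter.atTop, ∀ l, |-Real.log (A (φ t) l) / N (φ t) - α l| ≤ τ ∧
      |(e (φ t) l : ℝ) * Real.log b / N (φ t) - ε l| ≤ τ := by
    rw [Filter.eventually_all]
    intro l
    have h1 := (Metric.tendsto_nhds.mp (hlim1 l)) τ hτ0
    have h2 := (Metric.tendsto_nhds.mp (hlim2 l)) τ hτ0
    filter_upwards [h1, h2] with t h3 h4
    rw [Real.dist_eq] at h3 h4
    exact ⟨h3.le, h4.le⟩
  obtain ⟨T0, hT0⟩ := Filter.eventually_atTop.mp hev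
  set X : ℝ := max 1 |ξ| with hX
  have hX1 : 1 ≤ X := le_max_left _ _
  have hXξ : |ξ| ≤ X := le_max_right _ _
  set Q : ℝ := Real.log (2 ^ (2 * (n' + 1)) * C * (2 * X) * 2 * ((n' + 1 : ℕ) : ℝ)) with hQ
  set Ns : ℝ := max 1 (max (Q * (4 * ((n' + 1 : ℕ) : ℝ)) / γ) (max (2 * c / ω)
    (Real.log C * m * (2 * c) / ω))) with hNs
  have hNs1 : 1 ≤ Ns := le_max_left _ _
  have hNs0 : 0 < Ns := by linarith
  have hNs2 : Q * (4 * ((n' + 1 : ℕ) : ℝ)) / γ ≤ Ns := le_trans (le_max_left _ _) (le_max_right _ _)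
  have hNs3 : 2 * c / ω ≤ Ns :=
    le_trans (le_trans (le_max_left _ _) (le_max_right _ _)) (le_max_right _ _)
  have hNs4 : Real.log C * m * (2 * c) / ω ≤ Ns :=
    le_trans (le_trans (le_max_right _ _) (le_max_right _ _)) (le_max_right _ _)
  obtain ⟨f, hf1, hf2, hf3⟩ := exists_fast (fun t => N (φ t)) (fun t => hN0 _)
    (hN.comp hφ.tendsto_atTop) T0 Ns (max 1 (2 / ω)) (le_max_left _ _)
  set tt : Fin m → ℕ := fun h => φ (f h) with htt
  have hNh0 : ∀ h, 0 < N (tt h) := fun h => hN0 _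
  obtain ⟨R0, r, hR0, hr, hrN1, hrN2⟩ := exists_degrees hm (fun h => N (tt h)) hNh0 τ hτ0 hτ12
  obtain ⟨cf, hcf0, hcfC, hcfs, hcfb⟩ := haux m (le_max_left _ _) r hr
  have hNmin : ∀ h, Ns ≤ N (tt h) := fun h => hf2 _
  have hrle : ∀ h, (r h : ℝ) ≤ R0 / N (tt h) := by
    intro h; rw [le_div_iff₀ (hNh0 h)]; exact hrN2 h
  -- reduce_pair input
  have hvan : ∀ k ∈ {k : Fin m → ℕ | ∑ h, (k h : ℝ) / (r h : ℝ) < τ},
      ∀ W : Fin m → Fin (n' + 1) → ℝ,
        (∀ h, ∑ l, ((x (tt h) l : ℝ) * (b : ℝ) ^ (e (tt h) l)) * W h l = 0) →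
        Sk r j1 k cf W = 0 := by
    intro k hk W hW
    obtain ⟨E, hE1, hE2⟩ := est hm (by omega : 1 ≤ n' + 1) r hr Y j1 ξ X hX1 hXξ k cf C hC hcfC τ
      hτ0 (by linarith) hcfs hcfb hk b hb (fun h l => e (tt h) l) (fun h l => A (tt h) l)
      (fun h l => hApos _ _) (fun h => N (tt h)) Ns hNs0 hNmin R0 hR0 hrN1 hrN2 α ε c γ hc hα
      (fun l => (hε l).1) (fun l => (hε l).2) hγα hγ
      (by
        intro h l
        have h1 := (hT0 (f h) (hf1 h) l).1
        have h2 := hNh0 h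
        have h3 : -Real.log (A (tt h) l) - α l * N (tt h) =
            (-Real.log (A (tt h) l) / N (tt h) - α l) * N (tt h) := by
          field_simp
        show |-Real.log (A (tt h) l) - α l * N (tt h)| ≤ τ * N (tt h)
        rw [h3, abs_mul, abs_of_pos h2]
        exact mul_le_mul_of_nonneg_right h1 h2.le)
      (by
        intro h l
        have h1 := (hT0 (f h) (hf1 h) l).2
        have h2 := hNh0 h
        have h3 : (e (tt h) l : ℝ) * Real.log b - ε l * N (tt h) =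
            ((e (tt h) l : ℝ) * Real.log b / N (tt h) - ε l) * N (tt h) := by
          field_simp
        show |(e (tt h) l : ℝ) * Real.log b - ε l * N (tt h)| ≤ τ * N (tt h)
        rw [h3, abs_mul, abs_of_pos h2]
        exact mul_le_mul_of_nonneg_right h1 h2.le)
      hτγ
      (by
        rw [div_le_iff₀ hNs0]
        rw [div_le_iff₀ hγ] at hNs2
        have h5 : (0 : ℝ) < 4 * ((n' + 1 : ℕ) : ℝ) := by positivity
        rw [div_mul_eq_mul_div, le_div_iff₀ h5]
        linarith)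
    have hSV := Sk_vanish r Y j1 hj1 ξ k cf b (by omega) (fun h l => e (tt h) l)
      (fun h => heY _) (fun h => w (tt h))
      (fun h l => ((n' + 1 : ℕ) : ℝ) * A (tt h) l / (b : ℝ) ^ (e (tt h) l))
      (by
        intro h l
        have hbe : (0 : ℝ) < (b : ℝ) ^ (e (tt h) l) := by positivity
        calc ∑ i, |((w (tt h) i l : ℝ) - (if l = Y then 0 else ξ * (b : ℝ) ^ (e (tt h) l) *
                w (tt h) i Y)) / (b : ℝ) ^ (e (tt h) l)|
            ≤ ∑ _i : Fin n', A (tt h) l / (b : ℝ) ^ (e (tt h) l) := by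
              apply Finset.sum_le_sum
              intro i _
              rw [abs_div, abs_of_pos hbe]
              exact div_le_div_of_nonneg_right (hbd _ _ _) hbe.le
          _ = (n' : ℝ) * (A (tt h) l / (b : ℝ) ^ (e (tt h) l)) := by
              rw [Finset.sum_const, Finset.card_univ, Fintype.card_fin, nsmul_eq_mul]
          _ ≤ ((n' + 1 : ℕ) : ℝ) * A (tt h) l / (b : ℝ) ^ (e (tt h) l) := by
              rw [mul_div_assoc]
              apply mul_le_mul_of_nonneg_right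
              · push_cast; linarith
              · have := hApos (tt h) l; positivity)
      E hE1 hE2
    -- span
    have hsp : ∀ h, ∃ u : Fin n' → ℝ, ∀ l, (b : ℝ) ^ (e (tt h) l) * W h l =
        ∑ i, u i * (w (tt h) i l : ℝ) := by
      intro h
      apply span_perp n' (x (tt h)) _ (w (tt h)) (hw _) (horth _)
      · rw [← hW h]
        apply Finset.sum_congr rfl
        intro l _
        ring
      · intro h0
        apply hx1 (tt h)
        rw [h0]; rfl
    choose u hu using hsp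
    rw [← hSV u]
    congr 1
    funext h l
    have hbe : (b : ℝ) ^ (e (tt h) l) ≠ 0 := by positivity
    have h1 := hu h l
    have h2 : W h l = ((b : ℝ) ^ (e (tt h) l) * W h l) / (b : ℝ) ^ (e (tt h) l) := by
      field_simp
    rw [h2, h1, Finset.sum_div]
    apply Finset.sum_congr rfl
    intro i _
    ring
  obtain ⟨c', hc'0, hc'H, hc'v⟩ := reduce_pair r j1 j2 hj12
    {k : Fin m → ℕ | ∑ h, (k h : ℝ) / (r h : ℝ) < τ} cf (C ^ (∑ h, r h)) (by positivity) hcf0 hcfC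
    (fun h l => (x (tt h) l : ℝ) * (b : ℝ) ^ (e (tt h) l))
    (by
      intro h
      have h1 : (x (tt h) j1 : ℝ) ≠ 0 := by exact_mod_cast hx1 _
      have h2 : (b : ℝ) ^ (e (tt h) j1) ≠ 0 := by positivity
      exact mul_ne_zero h1 h2) hvan
  have hτ1 : (1 - τ) ≥ 1 / 2 := by linarith
  obtain ⟨k, hk1, hk2⟩ := hroth r (R0 / (2 * c)) hm hr
    (by
      intro i j hij
      have h1 := hrle j
      have h2 := hrN1 i
      have h3 := hf3 i j (by exact_mod_cast hij)
      have h4 : (2 / ω) * N (tt i) ≤ N (tt j) := by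
        refine le_trans ?_ h3
        exact mul_le_mul_of_nonneg_right (le_max_right _ _) (hNh0 i).le
      have h5 : R0 / N (tt j) ≤ R0 / ((2 / ω) * N (tt i)) := by
        apply div_le_div_of_nonneg_left hR0.le _ h4
        have := hNh0 i; positivity
      have h6 : R0 / ((2 / ω) * N (tt i)) = ω * ((1/2) * R0 / N (tt i)) := by
        have := (hNh0 i).ne'
        field_simp
      have h7 : (1/2) * R0 / N (tt i) ≤ r i := by
        rw [div_le_iff₀ (hNh0 i)]
        refine le_trans ?_ h2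
        exact mul_le_mul_of_nonneg_right hτ1 hR0.le
      calc (r j : ℝ) ≤ R0 / N (tt j) := h1
        _ ≤ ω * ((1/2) * R0 / N (tt i)) := by rw [← h6]; exact h5
        _ ≤ ω * r i := mul_le_mul_of_nonneg_left h7 hω.le)
    (by
      intro h
      refine le_trans (hrle h) ?_
      rw [div_le_iff₀ (hNh0 h)]
      have h1 : 2 * c / ω ≤ N (tt h) := le_trans hNs3 (hNmin h)
      rw [div_le_iff₀ hω] at h1
      have h2 : ω * (R0 / (2 * c)) * N (tt h) = R0 * (N (tt h) * ω) / (2 * c) := by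
        field_simp
      rw [h2, le_div_iff₀ (by positivity)]
      exact mul_le_mul_of_nonneg_left h1 hR0.le)
    (fun h => p (tt h)) (fun h => q (tt h)) (fun h => hpq _) (fun h => hq0 _)
    (by
      intro h
      have h1 := hht (tt h)
      have h2 : R0 / (2 * c) ≤ r h * (N (tt h) / c) := by
        rw [← mul_div_assoc, div_le_div_iff₀ (by positivity) hc0]
        have h3 : R0 / 2 ≤ r h * N (tt h) := by
          refine le_trans ?_ (hrN1 h)
          nlinarith
        nlinarith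
      refine le_trans h2 ?_
      exact mul_le_mul_of_nonneg_left h1 (by positivity))
    c' hc'0
    (by
      intro a ha
      refine le_trans (hc'H a ha) ?_
      have hCpos : 0 < C := by linarith
      have h1 : C ^ (∑ h, r h) = Real.exp (Real.log C * ((∑ h, r h : ℕ) : ℝ)) := by
        rw [← Real.rpow_natCast, Real.rpow_def_of_pos hCpos]
      rw [h1, Real.exp_le_exp]
      have h2 : ((∑ h, r h : ℕ) : ℝ) ≤ m * (R0 / Ns) := by
        push_cast
        calc ∑ h, (r h : ℝ) ≤ ∑ _h : Fin m, R0 / Ns := by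
              apply Finset.sum_le_sum
              intro h _
              refine le_trans (hrle h) ?_
              exact div_le_div_of_nonneg_left hR0.le hNs0 (hNmin h)
          _ = m * (R0 / Ns) := by
              rw [Finset.sum_const, Finset.card_univ, Fintype.card_fin, nsmul_eq_mul]
      have h3 : 0 ≤ Real.log C := Real.log_nonneg hC
      refine le_trans (mul_le_mul_of_nonneg_left h2 h3) ?_
      rw [div_le_iff₀ hω] at hNs4
      have h4 : Real.log C * (↑m * (R0 / Ns)) = (Real.log C * m * (2 * c)) * R0 / (Ns * (2 * c)) := by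
        field_simp
      rw [h4, div_le_iff₀ (by positivity)]
      have h5 : ω * (R0 / (2 * c)) * (Ns * (2 * c)) = Ns * ω * R0 := by
        field_simp
      rw [h5]
      exact mul_le_mul_of_nonneg_right hNs4 hR0.le)
  apply hk2
  have h1 := hc'v k hk1
  rw [← h1]
  apply Finset.sum_congr rfl
  intro a _
  congr 1
  apply Finset.prod_congr rfl
  intro h _
  congr 2
  have hq : (q (tt h) : ℝ) ≠ 0 := by exact_mod_cast hq0 _
  have hx : (x (tt h) j1 : ℝ) ≠ 0 := by exact_mod_cast hx1 _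
  have hbe : (b : ℝ) ^ (e (tt h) j1) ≠ 0 := by positivity
  have h3 : (x (tt h) j1 : ℝ) * (b : ℝ) ^ (e (tt h) j1) * (p (tt h) : ℝ) =
      -((x (tt h) j2 : ℝ) * (b : ℝ) ^ (e (tt h) j2) * (q (tt h) : ℝ)) := by
    exact_mod_cast hrat (tt h)
  show (p (tt h) : ℝ) / (q (tt h) : ℝ) = -((x (tt h) j2 : ℝ) * (b : ℝ) ^ (e (tt h) j2)) /
    ((x (tt h) j1 : ℝ) * (b : ℝ) ^ (e (tt h) j1))
  rw [div_eq_div_iff hq (mul_ne_zero hx hbe)]
  linarith

end Pool.Agent.H393R2
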