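import Mathlib
import Pool.Agent.H9.Lib.R_seed8.H393R2.Geom2

/-! TEAM-S, task 3 (geometry of numbers), part 3: Minkowski's second theorem, duality and the final
statement. -/

set_option autoImplicit false

open Finset Module

namespace Pool.Agent.H393R2

namespace Geom

section
variable {n : ℕ} (L Ls : Matrix (Fin n) (Fin n) ℝ) (G : Matrix (Fin n) (Fin n) ℤ)

/-- the matrix whose rows are the images of the rows of `G` -/
noncomputable def MM : Matrix (Fin n) (Fin n) ℝ := (G.map (fun z : ℤ => (z : ℝ))) * L.transpose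

theorem MM_apply (j l : Fin n) : MM L G j l = app L (G j) l := by
  simp only [MM, Matrix.mul_apply, Matrix.map_apply, Matrix.transpose_apply, app_apply,
    Matrix.mulVec, dotProduct]
  apply Finset.sum_congr rfl
  intro i _; ring

theorem det_map_cast : (G.map (fun z : ℤ => (z : ℝ))).det = (G.det : ℝ) := by
  have := (Int.castRingHom ℝ).map_det G
  simpa using this.symm

theorem det_MM : (MM L G).det = G.det * L.det := by
  rw [MM, Matrix.det_mul, Matrix.det_transpose, det_map_cast]

theorem lam_pos (hL : L.det ≠ 0) (hG : G.det ≠ 0) (j : Fin n) : 0 < ‖app L (G j)‖ := by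
  rw [norm_pos_iff]
  intro h
  have h1 : (MM L G).det = 0 := by
    apply Matrix.det_eq_zero_of_row_eq_zero j
    intro l
    rw [MM_apply, h]
    rfl
  rw [det_MM] at h1
  rcases mul_eq_zero.1 h1 with h2 | h2
  · exact hG (by exact_mod_cast h2)
  · exact hL h2

theorem indep_rows (hL : L.det ≠ 0) (hG : G.det ≠ 0) :
    LinearIndependent ℝ (fun j : Fin n => app L (G j)) := by
  have h1 : (MM L G).det ≠ 0 := by
    rw [det_MM]
    exact mul_ne_zero (by exact_mod_cast hG) hL
  have h2 := Matrix.linearIndependent_rows_of_det_ne_zero h1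
  have e : (fun i => MM L G i) = (fun j : Fin n => app L (G j)) := by
    ext j l
    exact MM_apply L G j l
  rwa [e] at h2

/-- lower bound for the product of the minima -/
theorem prod_lower (hL : |L.det| = 1) (hG : G.det ≠ 0) :
    1 ≤ (n.factorial : ℝ) * ∏ j, ‖app L (G j)‖ := by
  have h1 := abs_det_le (MM L G) (fun j => ‖app L (G j)‖) (by
    intro i l
    rw [MM_apply]
    exact norm_le_pi_norm (app L (G i)) l)
  rw [det_MM, abs_mul, hL, mul_one] at h1
  refine le_trans ?_ h1
  have h2 : 1 ≤ |G.det| := Int.one_le_abs hG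
  exact_mod_cast h2

theorem exists_update_ne (hG : G.det ≠ 0) {x : Fin n → ℤ} (hx : x ≠ 0) :
    ∃ k, (G.updateRow k x).det ≠ 0 := by
  by_contra h
  push Not at h
  have h1 := cramer_rows G x
  simp only [h, zero_smul, Finset.sum_const_zero] at h1
  rcases smul_eq_zero.1 h1 with h2 | h2
  · exact hG h2
  · exact hx h2

/-- Minkowski's second theorem, upper bound. -/
theorem prod_upper (hn : 0 < n) (hL : |L.det| = 1) (hG : G.det ≠ 0)
    (hmono : ∀ i j : Fin n, i ≤ j → ‖app L (G i)‖ ≤ ‖app L (G j)‖)
    (hmin : ∀ (x : Fin n → ℤ) (i j : Fin n), j ≤ i → (G.updateRow i x).det ≠ 0 →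
        ‖app L (G j)‖ ≤ ‖app L x‖) :
    ∏ j, ‖app L (G j)‖ ≤ (2 * KK n) ^ n := by
  classical
  have hL0 : L.det ≠ 0 := by intro h; rw [h] at hL; simp at hL
  have hK := one_le_KK hn
  by_contra hcon
  rw [not_le] at hcon
  let u : ℕ → Fin n → ℝ := fun k => if h : k < n then app L (G ⟨k, h⟩) else 0
  have hu1 : ∀ j : Fin n, u j = app L (G j) := by
    intro j
    simp only [u, dif_pos j.2]
  have hu : LinearIndependent ℝ (fun i : Fin (n - 1) => u i) := by
    have h1 := (indep_rows L G hL0 hG).comp (fun i : Fin (n - 1) => (⟨i, by omega⟩ : Fin n)) (by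
      intro a b hab
      simpa [Fin.ext_iff] using hab)
    convert h1 using 2 with i
    exact hu1 ⟨i, by omega⟩
  obtain ⟨π, hinj, him, hctrl⟩ := order hn u hu
  have hbij : Function.Bijective (fun k : Fin n => π k) := by
    rw [Fintype.bijective_iff_injective_and_card]
    refine ⟨?_, rfl⟩
    intro a b hab
    exact Fin.ext (hinj a.2 b.2 hab)
  let e : Fin n ≃ Fin n := Equiv.ofBijective _ hbij
  have he : ∀ k : Fin n, e k = π k := fun k => rfl
  let c : Fin n → ℝ := fun l => ‖app L (G (e.symm l))‖ / (2 * KK n)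
  have hc : ∀ l, 0 < c l := fun l => div_pos (lam_pos L G hL0 hG _) (by positivity)
  have hprodc : |L.det| < ∏ l, c l := by
    rw [hL]
    simp only [c]
    rw [Equiv.prod_comp e.symm (fun j => ‖app L (G j)‖ / (2 * KK n)), Finset.prod_div_distrib,
      Finset.prod_const, Finset.card_univ, Fintype.card_fin, lt_div_iff₀ (by positivity), one_mul]
    exact hcon
  obtain ⟨y, hy0, hy⟩ := minkowski_forms L hL0 c hc hprodc
  obtain ⟨k0, hk0⟩ := exists_update_ne G hG hy0
  obtain ⟨j, hj, hjmax⟩ := Finset.exists_max_image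
    (Finset.univ.filter (fun k : Fin n => (G.updateRow k y).det ≠ 0)) id
    ⟨k0, by simp [hk0]⟩
  simp only [Finset.mem_filter, Finset.mem_univ, true_and, id] at hj hjmax
  have hspan : app L y ∈ Submodule.span ℝ (u '' Set.Iio ((j : ℕ) + 1)) := by
    have h1 : (G.det : ℝ) • app L y ∈ Submodule.span ℝ (u '' Set.Iio ((j : ℕ) + 1)) := by
      have h2 : (G.det : ℝ) • app L y = ∑ k, ((G.updateRow k y).det : ℝ) • app L (G k) := by
        have h3 := congrArg (app L) (cramer_rows G y)
        rw [map_smul, map_sum] at h3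
        simp only [map_smul] at h3
        simpa only [Int.cast_smul_eq_zsmul] using h3
      rw [h2]
      apply Submodule.sum_mem
      intro k _
      by_cases hk : (G.updateRow k y).det = 0
      · rw [hk]; simp
      · apply Submodule.smul_mem
        apply Submodule.subset_span
        refine ⟨k, ?_, hu1 k⟩
        have := hjmax k hk
        simp only [Set.mem_Iio]
        have : (k : ℕ) ≤ j := this
        omega
    have hGr : (G.det : ℝ) ≠ 0 := by exact_mod_cast hG
    exact (Submodule.smul_mem_iff _ hGr).1 h1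
  have hlam := lam_pos L G hL0 hG j
  have h4 := hctrl (j + 1) (by omega) (app L y) (Or.inl hspan) (‖app L (G j)‖ / (2 * KK n))
    (by positivity) (by
      intro k hk
      have hkn : k < n := by omega
      have h5 := hy (π k)
      have h6 : e.symm (π k) = ⟨k, hkn⟩ := by
        rw [Equiv.symm_apply_eq]
        rfl
      simp only [c, h6] at h5
      refine h5.trans ?_
      have := hmono ⟨k, hkn⟩ j (by
        rw [Fin.le_def]
        simp only
        omega)
      gcongr)
  have h7 : ‖app L y‖ ≤ ‖app L (G j)‖ / 2 := by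
    rw [pi_norm_le_iff_of_nonneg (by positivity)]
    intro l
    refine (h4 l).trans (le_of_eq ?_)
    field_simp
  have h8 := hmin y j j le_rfl hj
  linarith

/-- the dual vectors -/
def dual (j : Fin n) : Fin n → ℤ := fun l => G.adjugate l j

theorem dual_orth {i j : Fin n} (hij : i ≠ j) : ∑ l, G i l * dual G j l = 0 := by
  have h := congrFun (congrFun (Matrix.mul_adjugate G) i) j
  rw [Matrix.mul_apply] at h
  simp only [Matrix.smul_apply, Matrix.one_apply_ne hij, smul_zero] at h
  exact h

theorem adj_transpose (hLs : Ls.transpose * L = 1) : L.transpose.adjugate = L.det • Ls := by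
  have h1 : L.transpose * Ls = 1 := by
    have := congrArg Matrix.transpose hLs
    simpa [Matrix.transpose_mul] using this
  calc L.transpose.adjugate = L.transpose.adjugate * (L.transpose * Ls) := by rw [h1, mul_one]
    _ = (L.transpose.adjugate * L.transpose) * Ls := by rw [mul_assoc]
    _ = L.det • Ls := by
        rw [Matrix.adjugate_mul, Matrix.det_transpose, Matrix.smul_mul, one_mul]

theorem adj_MM (hLs : Ls.transpose * L = 1) (l j : Fin n) :
    (MM L G).adjugate l j = L.det * app Ls (dual G j) l := by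
  rw [MM, Matrix.adjugate_mul_distrib, adj_transpose L Ls hLs, Matrix.smul_mul,
    Matrix.smul_apply, smul_eq_mul]
  congr 1
  rw [Matrix.mul_apply, app_apply]
  simp only [Matrix.mulVec, dotProduct, dual]
  apply Finset.sum_congr rfl
  intro i _
  congr 1
  have := (Int.castRingHom ℝ).map_adjugate G
  have h2 := congrFun (congrFun this i) j
  simp only [RingHom.mapMatrix_apply, Matrix.map_apply, Int.coe_castRingHom] at h2
  exact h2.symm

theorem dual_bound (hL : |L.det| = 1) (hLs : Ls.transpose * L = 1) (hG : G.det ≠ 0)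
    (hup : ∏ j, ‖app L (G j)‖ ≤ (2 * KK n) ^ n) (j l : Fin n) :
    |app Ls (dual G j) l| ≤ (n.factorial : ℝ) * (2 * KK n) ^ n / ‖app L (G j)‖ := by
  classical
  have hL0 : L.det ≠ 0 := by intro h; rw [h] at hL; simp at hL
  have hlam := lam_pos L G hL0 hG j
  have h1 : |app Ls (dual G j) l| = |(MM L G).adjugate l j| := by
    rw [adj_MM L Ls G hLs, abs_mul, hL, one_mul]
  rw [h1, Matrix.adjugate_apply]
  have h2 := abs_det_le ((MM L G).updateRow j (Pi.single l 1))
    (fun i => if i = j then 1 else ‖app L (G i)‖) (by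
      intro i k
      by_cases hij : i = j
      · subst hij
        rw [Matrix.updateRow_self, if_pos rfl, Pi.single_apply]
        split_ifs <;> simp
      · rw [Matrix.updateRow_ne hij, if_neg hij, MM_apply]
        exact norm_le_pi_norm (app L (G i)) k)
  refine h2.trans ?_
  rw [mul_div_assoc]
  have h3 : ∏ i, (if i = j then (1 : ℝ) else ‖app L (G i)‖) * (if i = j then ‖app L (G j)‖ else 1)
      = ∏ i, ‖app L (G i)‖ := by
    apply Finset.prod_congr rfl
    intro i _
    by_cases hij : i = j
    · subst hij; simp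
    · simp [hij]
  rw [Finset.prod_mul_distrib, Finset.prod_ite_eq' Finset.univ j (fun _ => ‖app L (G j)‖),
    if_pos (Finset.mem_univ _)] at h3
  have h4 : ∏ i, (if i = j then (1 : ℝ) else ‖app L (G i)‖) ≤ (2 * KK n) ^ n / ‖app L (G j)‖ := by
    rw [le_div_iff₀ hlam, h3]
    exact hup
  gcongr

theorem dual_indep (hL : L.det ≠ 0) (hLs : Ls.transpose * L = 1) (hG : G.det ≠ 0) :
    LinearIndependent ℝ (fun j : Fin n => app Ls (dual G j)) := by
  have h1 : ((MM L G).adjugate.transpose).det ≠ 0 := by
    rw [Matrix.det_transpose, Matrix.det_adjugate, det_MM]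
    apply pow_ne_zero
    exact mul_ne_zero (by exact_mod_cast hG) hL
  have h2 := Matrix.linearIndependent_rows_of_det_ne_zero h1
  have h3 : (fun j => (MM L G).adjugate.transpose j) =
      (fun j : Fin n => (Units.mk0 L.det hL) • app Ls (dual G j)) := by
    ext j l
    rw [Matrix.transpose_apply, adj_MM L Ls G hLs]
    rfl
  have h4 : LinearIndependent ℝ (fun j => (MM L G).adjugate.transpose j) := h2
  rw [h3] at h4
  let a : Fin n → ℝˣ := fun _ => (Units.mk0 L.det hL)⁻¹
  have h5 := h4.units_smul a
  have h6 : (a • fun j : Fin n =>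
      (Units.mk0 L.det hL) • app Ls (dual G j)) = (fun j : Fin n => app Ls (dual G j)) := by
    funext j
    show (Units.mk0 L.det hL)⁻¹ • ((Units.mk0 L.det hL) • app Ls (dual G j)) = app Ls (dual G j)
    rw [inv_smul_smul]
  rwa [h6] at h5

end

end Geom

end Pool.Agent.H393R2
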