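import Mathlib
import Pool.Agent.H9.Lib.R_seed8.H393R2.Roth2

set_option autoImplicit false

open Finset

namespace Pool.Agent.H393R2.RothNS

open Polynomial in
theorem lin_primitive (p q : ℤ) (hpq : IsCoprime p q) :
    (C q * X + C (-p) : ℤ[X]).IsPrimitive := by
  rw [Polynomial.isPrimitive_iff_isUnit_of_C_dvd]
  intro r hr
  rw [Polynomial.C_dvd_iff_dvd_coeff] at hr
  have h0 := hr 0
  have h1 := hr 1
  simp only [coeff_add, coeff_C_mul, coeff_X_zero, mul_zero, coeff_C_zero, zero_add, coeff_X_one,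
    mul_one, coeff_C_succ, add_zero, dvd_neg] at h0 h1
  exact hpq.isUnit_of_dvd' h0 h1

open Polynomial in
theorem prim_pow {L : ℤ[X]} (hL : L.IsPrimitive) (K : ℕ) : (L ^ K).IsPrimitive := by
  induction K with
  | zero => simp
  | succ K ih => rw [pow_succ]; exact ih.mul hL

open Polynomial in
/-- one variable case -/
theorem one_var (σ ω R : ℝ) (hωσ : ω < σ) (hσ : 0 < σ) (hR : 0 < R) (r : ℕ) (hr : 0 < r)
    (p q : ℤ) (hpq : IsCoprime p q) (hq : q ≠ 0)
    (hlog : R ≤ r * Real.log (max |(p : ℝ)| |(q : ℝ)|)) (P : ℤ[X]) (hP : P ≠ 0)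
    (hco : ∀ n, |(P.coeff n : ℝ)| ≤ Real.exp (ω * R)) :
    ∃ k : ℕ, (k : ℝ) / r < σ ∧
      (hasseDeriv k (P.map (Int.castRingHom ℚ))).eval ((p : ℚ) / q) ≠ 0 := by
  by_contra hcon
  push Not at hcon
  have hr' : (0 : ℝ) < r := by exact_mod_cast hr
  have hq' : (q : ℚ) ≠ 0 := by exact_mod_cast hq
  set K := ⌈σ * r⌉₊ with hK
  have hKge : σ * r ≤ K := Nat.le_ceil _
  have hvan : ∀ k < K, (hasseDeriv k (P.map (Int.castRingHom ℚ))).eval ((p : ℚ) / q) = 0 := by
    intro k hk
    apply hcon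
    rw [div_lt_iff₀ hr']
    exact Nat.lt_ceil.mp hk
  have hdvd : (X - C ((p : ℚ) / q)) ^ K ∣ P.map (Int.castRingHom ℚ) := by
    rw [X_sub_C_pow_dvd_iff, X_pow_dvd_iff]
    intro d hd
    have := hvan d hd
    rw [← taylor_coeff] at this
    rw [← this]
    rfl
  have hdvd2 : (C q * X + C (-p) : ℤ[X]) ^ K ∣ P := by
    rw [Polynomial.IsPrimitive.Int.dvd_iff_map_cast_dvd_map_cast _ _
      (prim_pow (lin_primitive p q hpq) K)]
    have : ((C q * X + C (-p) : ℤ[X]) ^ K).map (Int.castRingHom ℚ) =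
        C ((q : ℚ) ^ K) * (X - C ((p : ℚ) / q)) ^ K := by
      rw [Polynomial.map_pow, C_pow, ← mul_pow]
      congr 1
      rw [mul_sub, ← C_mul, mul_div_cancel₀ _ hq', sub_eq_add_neg, ← C_neg]
      simp
    rw [this]
    exact (IsUnit.mul_left_dvd
      (Polynomial.isUnit_C.mpr (isUnit_iff_ne_zero.mpr (pow_ne_zero K hq')))).mpr hdvd
  obtain ⟨S, hS⟩ := hdvd2
  have hS0 : S ≠ 0 := by rintro rfl; rw [mul_zero] at hS; exact hP hS
  -- leading coefficient
  have hlead : |(q : ℝ)| ^ K ≤ Real.exp (ω * R) := by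
    have h1 : P.leadingCoeff = q ^ K * S.leadingCoeff := by
      rw [hS, leadingCoeff_mul, leadingCoeff_pow, leadingCoeff_linear hq]
    have h2 := hco P.natDegree
    rw [coeff_natDegree, h1] at h2
    refine le_trans ?_ h2
    push_cast
    rw [abs_mul, abs_pow]
    have h3 : (1 : ℝ) ≤ |(S.leadingCoeff : ℝ)| := by
      have : (1 : ℤ) ≤ |S.leadingCoeff| := Int.one_le_abs (leadingCoeff_ne_zero.mpr hS0)
      exact_mod_cast this
    exact le_mul_of_one_le_right (by positivity) h3
  have htrail : p ≠ 0 → |(p : ℝ)| ^ K ≤ Real.exp (ω * R) := by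
    intro hp
    have h0 : (C q * X + C (-p) : ℤ[X]).coeff 0 = -p := by simp
    have h1 : (C q * X + C (-p) : ℤ[X]).trailingCoeff = -p := by
      rw [trailingCoeff]
      have : (C q * X + C (-p) : ℤ[X]).natTrailingDegree = 0 := by
        rw [natTrailingDegree_eq_zero]
        right
        rw [h0]; exact neg_ne_zero.mpr hp
      rw [this, h0]
    have hpow : ∀ n : ℕ, ((C q * X + C (-p) : ℤ[X]) ^ n).trailingCoeff = (-p) ^ n := by
      intro n
      induction n with
      | zero => simp [trailingCoeff]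
      | succ n ih => rw [pow_succ, trailingCoeff_mul, ih, h1, pow_succ]
    have h2 := hco P.natTrailingDegree
    rw [show P.coeff P.natTrailingDegree = P.trailingCoeff from rfl, hS, trailingCoeff_mul, hpow] at h2
    refine le_trans ?_ h2
    push_cast
    rw [abs_mul, abs_pow, abs_neg]
    have h3 : (1 : ℝ) ≤ |(S.trailingCoeff : ℝ)| := by
      have : (1 : ℤ) ≤ |S.trailingCoeff| := Int.one_le_abs (by rwa [Ne, trailingCoeff_eq_zero])
      exact_mod_cast this
    exact le_mul_of_one_le_right (by positivity) h3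
  -- conclusion
  set M := max |(p : ℝ)| |(q : ℝ)| with hM
  have hq1 : (1 : ℝ) ≤ |(q : ℝ)| := by
    have : (1 : ℤ) ≤ |q| := Int.one_le_abs hq
    exact_mod_cast this
  have hM1 : 1 ≤ M := hq1.trans (le_max_right _ _)
  have hMK : M ^ K ≤ Real.exp (ω * R) := by
    rcases le_total |(p : ℝ)| |(q : ℝ)| with h | h
    · rw [hM, max_eq_right h]; exact hlead
    · have hp : p ≠ 0 := by
        rintro rfl
        simp at h
        exact hq (by exact_mod_cast h)
      rw [hM, max_eq_left h]; exact htrail hp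
  have hlogM : 0 ≤ Real.log M := Real.log_nonneg hM1
  have h4 : K * Real.log M ≤ ω * R := by
    rw [← Real.log_pow]
    calc Real.log (M ^ K) ≤ Real.log (Real.exp (ω * R)) :=
          Real.log_le_log (by positivity) hMK
      _ = ω * R := Real.log_exp _
  have h5 : σ * R ≤ K * Real.log M := by
    calc σ * R ≤ σ * (r * Real.log M) := mul_le_mul_of_nonneg_left hlog hσ.le
      _ = (σ * r) * Real.log M := by ring
      _ ≤ K * Real.log M := mul_le_mul_of_nonneg_right hKge hlogM
  have h6 : ω * R < σ * R := mul_lt_mul_of_pos_right hωσ hR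
  linarith

end Pool.Agent.H393R2.RothNS
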