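import Mathlib
import Pool.Agent.H9.Lib.R_seed8.H393R2.Roth3

set_option autoImplicit false

open Finset

namespace Pool.Agent.H393R2.RothNS

/-! ### minimal decompositions -/

theorem reduce_decomp {K V W U : Type*} [Field K] [AddCommGroup V] [Module K V] [AddCommGroup W]
    [Module K W] [AddCommGroup U] [Module K U] (B : V →ₗ[K] W →ₗ[K] U) (k : ℕ)
    (f : Fin (k+1) → V) (g : Fin (k+1) → W) (hf : ¬ LinearIndependent K f) :
    ∃ (f' : Fin k → V) (g' : Fin k → W), ∑ i, B (f i) (g i) = ∑ i, B (f' i) (g' i) := by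
  rw [Fintype.not_linearIndependent_iff] at hf
  obtain ⟨c, hc, i, hi⟩ := hf
  rw [Fin.sum_univ_succAbove _ i] at hc
  have h1 : f i = ∑ j, (-(c i)⁻¹ * c (i.succAbove j)) • f (i.succAbove j) := by
    have h2 : c i • f i = - ∑ j, c (i.succAbove j) • f (i.succAbove j) := eq_neg_of_add_eq_zero_left hc
    calc f i = (c i)⁻¹ • (c i • f i) := by rw [smul_smul, inv_mul_cancel₀ hi, one_smul]
      _ = _ := by
        rw [h2, smul_neg, Finset.smul_sum, ← Finset.sum_neg_distrib]
        refine Finset.sum_congr rfl (fun j _ => ?_)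
        rw [smul_smul, ← neg_smul]; congr 1; ring
  refine ⟨fun j => f (i.succAbove j),
    fun j => g (i.succAbove j) + (-(c i)⁻¹ * c (i.succAbove j)) • g i, ?_⟩
  rw [Fin.sum_univ_succAbove _ i, h1, map_sum, LinearMap.sum_apply, ← Finset.sum_add_distrib]
  refine Finset.sum_congr rfl (fun j _ => ?_)
  rw [map_smul, LinearMap.smul_apply, map_add, map_smul, add_comm]

theorem min_decomp {K V W U : Type*} [Field K] [AddCommGroup V] [Module K V] [AddCommGroup W]
    [Module K W] [AddCommGroup U] [Module K U] (B : V →ₗ[K] W →ₗ[K] U) (u : U) (N : ℕ)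
    (f0 : Fin N → V) (g0 : Fin N → W) (h0 : u = ∑ i, B (f0 i) (g0 i)) :
    ∃ k ≤ N, ∃ (f : Fin k → V) (g : Fin k → W), u = ∑ i, B (f i) (g i) ∧
      LinearIndependent K f ∧ LinearIndependent K g := by
  classical
  have hex : ∃ k, ∃ (f : Fin k → V) (g : Fin k → W), u = ∑ i, B (f i) (g i) := ⟨N, f0, g0, h0⟩
  obtain ⟨f, g, hfg⟩ := Nat.find_spec hex
  refine ⟨Nat.find hex, Nat.find_min' hex ⟨f0, g0, h0⟩, f, g, hfg, ?_, ?_⟩
  · by_contra hf
    rcases hk : Nat.find hex with _ | k'
    · revert hf f g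
      rw [hk]
      intro f g _ hf
      exact hf (linearIndependent_empty_type)
    · have hmin : ¬ ∃ (f : Fin k' → V) (g : Fin k' → W), u = ∑ i, B (f i) (g i) :=
        Nat.find_min hex (by omega)
      apply hmin
      revert hf f g
      rw [hk]
      intro f g hfg hf
      obtain ⟨f', g', h'⟩ := reduce_decomp B k' f g hf
      exact ⟨f', g', hfg.trans h'⟩
  · by_contra hg
    rcases hk : Nat.find hex with _ | k'
    · revert hg f g
      rw [hk]
      intro f g _ hf
      exact hf (linearIndependent_empty_type)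
    · have hmin : ¬ ∃ (f : Fin k' → V) (g : Fin k' → W), u = ∑ i, B (f i) (g i) :=
        Nat.find_min hex (by omega)
      apply hmin
      revert hg f g
      rw [hk]
      intro f g hfg hg
      obtain ⟨g', f', h'⟩ := reduce_decomp B.flip k' g f hg
      exact ⟨f', g', hfg.trans h'⟩

/-! ### separated products -/

section Sep
variable (R : Type) [CommRing R] (m : ℕ)

/-- polynomials in the last `m` variables -/
noncomputable def i1 : MvPolynomial (Fin m) R →+* MvPolynomial (Fin (m+1)) R :=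
  (MvPolynomial.finSuccEquiv R m).symm.toRingEquiv.toRingHom.comp Polynomial.C

/-- polynomials in the first variable -/
noncomputable def i2 : Polynomial R →+* MvPolynomial (Fin (m+1)) R :=
  (MvPolynomial.finSuccEquiv R m).symm.toRingEquiv.toRingHom.comp
    (Polynomial.mapRingHom MvPolynomial.C)

variable {R m}

theorem fse_i1 (f : MvPolynomial (Fin m) R) :
    MvPolynomial.finSuccEquiv R m (i1 R m f) = Polynomial.C f := by
  simp [i1]

theorem fse_i2 (g : Polynomial R) :
    MvPolynomial.finSuccEquiv R m (i2 R m g) = g.map MvPolynomial.C := by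
  simp [i2]

theorem coeff_sep (f : MvPolynomial (Fin m) R) (g : Polynomial R) (n : ℕ) (a : Fin m →₀ ℕ) :
    MvPolynomial.coeff (Finsupp.cons n a) (i1 R m f * i2 R m g) =
      MvPolynomial.coeff a f * g.coeff n := by
  rw [← MvPolynomial.finSuccEquiv_coeff_coeff, map_mul, fse_i1, fse_i2, Polynomial.coeff_C_mul,
    Polynomial.coeff_map, mul_comm f, MvPolynomial.coeff_C_mul, mul_comm]

theorem ext_cons {P Q : MvPolynomial (Fin (m+1)) R}
    (h : ∀ (n : ℕ) (a : Fin m →₀ ℕ), MvPolynomial.coeff (Finsupp.cons n a) P =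
      MvPolynomial.coeff (Finsupp.cons n a) Q) : P = Q := by
  ext a
  rw [← Finsupp.cons_tail a]
  exact h _ _

theorem ch_cons (n b : ℕ) (a μ : Fin m →₀ ℕ) :
    ch (Finsupp.cons n a) (Finsupp.cons b μ) = n.choose b * ch a μ := by
  simp [ch, Fin.prod_univ_succ]

theorem cons_add (n b : ℕ) (a μ : Fin m →₀ ℕ) :
    Finsupp.cons n a + Finsupp.cons b μ = Finsupp.cons (n + b) (a + μ) := by
  ext i
  refine Fin.cases ?_ (fun j => ?_) i <;> simp

theorem DD_sep (b : ℕ) (μ : Fin m →₀ ℕ) (f : MvPolynomial (Fin m) R) (g : Polynomial R) :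
    DD (Finsupp.cons b μ) (i1 R m f * i2 R m g) = i1 R m (DD μ f) * i2 R m (Polynomial.hasseDeriv b g) := by
  apply ext_cons
  intro n a
  rw [coeff_DD, cons_add, coeff_sep, coeff_sep, ch_cons, coeff_DD, Polynomial.hasseDeriv_coeff]
  push_cast
  ring

theorem eval_i1 (ζ : Fin (m+1) → R) (f : MvPolynomial (Fin m) R) :
    MvPolynomial.eval ζ (i1 R m f) = MvPolynomial.eval (fun i => ζ i.succ) f := by
  rw [← Fin.cons_self_tail ζ, MvPolynomial.eval_eq_eval_mv_eval', fse_i1]
  simp

theorem eval_i2 (ζ : Fin (m+1) → R) (g : Polynomial R) :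
    MvPolynomial.eval ζ (i2 R m g) = g.eval (ζ 0) := by
  rw [← Fin.cons_self_tail ζ, MvPolynomial.eval_eq_eval_mv_eval', fse_i2, Polynomial.map_map,
    Fin.cons_zero]
  congr 1
  convert Polynomial.map_id
  ext x
  simp

/-- the bilinear map -/
noncomputable def sepB : MvPolynomial (Fin m) R →ₗ[R] Polynomial R →ₗ[R] MvPolynomial (Fin (m+1)) R :=
  LinearMap.mk₂ R (fun f g => i1 R m f * i2 R m g)
    (by intro f f' g; rw [map_add, add_mul])
    (by
      intro c f g
      apply ext_cons
      intro n a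
      rw [coeff_sep, MvPolynomial.coeff_smul, MvPolynomial.coeff_smul, coeff_sep]
      simp [mul_assoc])
    (by intro f g g'; rw [map_add, mul_add])
    (by
      intro c f g
      apply ext_cons
      intro n a
      rw [coeff_sep, MvPolynomial.coeff_smul, coeff_sep]
      simp [mul_left_comm])

theorem sepB_apply (f : MvPolynomial (Fin m) R) (g : Polynomial R) :
    sepB f g = i1 R m f * i2 R m g := rfl

end Sep

theorem sep_decomp {m : ℕ} (P : MvPolynomial (Fin (m+1)) ℚ) (hP : P ≠ 0) (r : ℕ)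
    (hr : ∀ a ∈ P.support, a 0 ≤ r) :
    ∃ k : ℕ, 0 < k ∧ k ≤ r + 1 ∧ ∃ (f : Fin k → MvPolynomial (Fin m) ℚ) (g : Fin k → Polynomial ℚ),
      P = ∑ i, i1 ℚ m (f i) * i2 ℚ m (g i) ∧ LinearIndependent ℚ f ∧ LinearIndependent ℚ g := by
  have h0 : P = ∑ i : Fin (r+1), sepB ((MvPolynomial.finSuccEquiv ℚ m P).coeff i)
      (Polynomial.X ^ (i : ℕ) : Polynomial ℚ) := by
    apply ext_cons
    intro n a
    rw [MvPolynomial.coeff_sum]
    simp_rw [sepB_apply, coeff_sep, MvPolynomial.finSuccEquiv_coeff_coeff, Polynomial.coeff_X_pow]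
    by_cases hn : n ≤ r
    · rw [Finset.sum_eq_single (⟨n, by omega⟩ : Fin (r+1))]
      · simp
      · intro b _ hb
        have : n ≠ (b : ℕ) := by
          intro h; apply hb; ext; simp [h]
        rw [if_neg this, mul_zero]
      · intro h; exact absurd (Finset.mem_univ _) h
    · have h1 : MvPolynomial.coeff (Finsupp.cons n a) P = 0 := by
        by_contra hne
        have := hr _ (MvPolynomial.mem_support_iff.mpr hne)
        rw [Finsupp.cons_zero] at this
        exact hn this
      rw [h1]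
      symm
      apply Finset.sum_eq_zero
      intro b _
      have : n ≠ (b : ℕ) := by
        intro h; apply hn; omega
      rw [if_neg this, mul_zero]
  obtain ⟨k, hk, f, g, hfg, hf, hg⟩ := min_decomp sepB P (r+1) _ _ h0
  refine ⟨k, ?_, hk, f, g, hfg, hf, hg⟩
  rcases Nat.eq_zero_or_pos k with rfl | h
  · exfalso; apply hP; rw [hfg]; simp
  · exact h

end Pool.Agent.H393R2.RothNS
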