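import Mathlib
import Pool.Agent.H9.Lib.R_seed8.H393R2.Roth4

set_option autoImplicit false

open Finset

namespace Pool.Agent.H393R2.RothNS

/-! ### `ℓ¹` norm -/

section L1

variable {σ : Type*}

/-- `ℓ¹`-norm of the coefficients -/
noncomputable def l1 (P : MvPolynomial σ ℤ) : ℝ := ∑ a ∈ P.support, |((MvPolynomial.coeff a P : ℤ) : ℝ)|

theorem l1_nonneg (P : MvPolynomial σ ℤ) : 0 ≤ l1 P := Finset.sum_nonneg (fun _ _ => abs_nonneg _)

theorem l1_eq_of_subset (P : MvPolynomial σ ℤ) (s : Finset (σ →₀ ℕ)) (h : P.support ⊆ s) :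
    l1 P = ∑ a ∈ s, |((MvPolynomial.coeff a P : ℤ) : ℝ)| := by
  apply Finset.sum_subset h
  intro a _ ha
  rw [MvPolynomial.notMem_support_iff] at ha
  rw [ha]; simp

theorem coeff_le_l1 (P : MvPolynomial σ ℤ) (a : σ →₀ ℕ) : |((MvPolynomial.coeff a P : ℤ) : ℝ)| ≤ l1 P := by
  by_cases ha : a ∈ P.support
  · exact Finset.single_le_sum (f := fun a => |((MvPolynomial.coeff a P : ℤ) : ℝ)|) (fun _ _ => abs_nonneg _) ha
  · rw [MvPolynomial.notMem_support_iff] at ha
    rw [ha]; simpa using l1_nonneg P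

theorem l1_zero : l1 (0 : MvPolynomial σ ℤ) = 0 := by simp [l1]

theorem l1_add (P Q : MvPolynomial σ ℤ) : l1 (P + Q) ≤ l1 P + l1 Q := by
  classical
  rw [l1_eq_of_subset (P + Q) (P.support ∪ Q.support) MvPolynomial.support_add,
    l1_eq_of_subset P (P.support ∪ Q.support) Finset.subset_union_left,
    l1_eq_of_subset Q (P.support ∪ Q.support) Finset.subset_union_right, ← Finset.sum_add_distrib]
  apply Finset.sum_le_sum
  intro a _
  rw [MvPolynomial.coeff_add]; push_cast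
  exact abs_add_le _ _

theorem l1_sum {ι : Type*} (s : Finset ι) (P : ι → MvPolynomial σ ℤ) :
    l1 (∑ i ∈ s, P i) ≤ ∑ i ∈ s, l1 (P i) := by
  classical
  induction s using Finset.induction_on with
  | empty => simp [l1_zero]
  | insert i s hi ih =>
    rw [Finset.sum_insert hi, Finset.sum_insert hi]
    exact (l1_add _ _).trans (by linarith)

theorem l1_monomial (a : σ →₀ ℕ) (c : ℤ) : l1 (MvPolynomial.monomial a c) = |(c : ℝ)| := by
  classical
  rw [l1_eq_of_subset _ {a} MvPolynomial.support_monomial_subset]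
  simp

theorem l1_mul (P Q : MvPolynomial σ ℤ) : l1 (P * Q) ≤ l1 P * l1 Q := by
  have h1 : P * Q = ∑ a ∈ P.support, ∑ b ∈ Q.support,
      MvPolynomial.monomial (a + b) (MvPolynomial.coeff a P * MvPolynomial.coeff b Q) := by
    conv_lhs => rw [P.as_sum, Q.as_sum, Finset.sum_mul_sum]
    simp_rw [MvPolynomial.monomial_mul]
  rw [h1]
  refine (l1_sum _ _).trans ?_
  rw [l1, l1, Finset.sum_mul_sum]
  apply Finset.sum_le_sum
  intro a _
  refine (l1_sum _ _).trans ?_
  apply Finset.sum_le_sum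
  intro b _
  rw [l1_monomial]; push_cast
  rw [abs_mul]

theorem l1_one : l1 (1 : MvPolynomial σ ℤ) = 1 := by
  have : (1 : MvPolynomial σ ℤ) = MvPolynomial.monomial 0 1 := rfl
  rw [this, l1_monomial]; simp

theorem l1_prod_le {ι : Type*} (s : Finset ι) (P : ι → MvPolynomial σ ℤ) (Z : ℝ)
    (hP : ∀ i ∈ s, l1 (P i) ≤ Z) : l1 (∏ i ∈ s, P i) ≤ Z ^ s.card := by
  classical
  induction s using Finset.induction_on with
  | empty => simp [l1_one]
  | insert i s hi ih =>
    rw [Finset.prod_insert hi, Finset.card_insert_of_notMem hi, pow_succ, mul_comm (Z ^ _)]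
    have hZ : 0 ≤ Z := (l1_nonneg (P i)).trans (hP i (Finset.mem_insert_self i s))
    refine (l1_mul _ _).trans ?_
    apply mul_le_mul (hP i (Finset.mem_insert_self i s))
      (ih (fun j hj => hP j (Finset.mem_insert_of_mem hj))) (l1_nonneg _) hZ

theorem l1_det {k : ℕ} (E : Matrix (Fin k) (Fin k) (MvPolynomial σ ℤ)) (Z : ℝ)
    (hE : ∀ a b, l1 (E a b) ≤ Z) : l1 E.det ≤ (k.factorial : ℝ) * Z ^ k := by
  rw [Matrix.det_apply]
  refine (l1_sum _ _).trans ?_
  have h1 : ∀ π ∈ (Finset.univ : Finset (Equiv.Perm (Fin k))),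
      l1 (Equiv.Perm.sign π • ∏ i, E (π i) i) ≤ Z ^ k := by
    intro π _
    have h2 : l1 (∏ i, E (π i) i) ≤ Z ^ k := by
      have := l1_prod_le Finset.univ (fun i => E (π i) i) Z (fun i _ => hE _ _)
      simpa using this
    rcases Int.units_eq_one_or (Equiv.Perm.sign π) with h | h
    · rw [h, one_smul]; exact h2
    · rw [h, Units.neg_smul, one_smul]
      have : l1 (-∏ i, E (π i) i) = l1 (∏ i, E (π i) i) := by
        simp [l1, MvPolynomial.support_neg, MvPolynomial.coeff_neg]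
      rw [this]; exact h2
  refine (Finset.sum_le_card_nsmul _ _ _ h1).trans ?_
  rw [Finset.card_univ, Fintype.card_perm, Fintype.card_fin, nsmul_eq_mul]

theorem l1_DD [Fintype σ] (μ : σ →₀ ℕ) (P : MvPolynomial σ ℤ) (N : ℕ)
    (hN : ∀ a ∈ P.support, ∑ i, a i ≤ N) : l1 (DD μ P) ≤ 2 ^ N * l1 P := by
  conv_lhs => rw [P.as_sum, map_sum]
  refine (l1_sum _ _).trans ?_
  rw [l1, Finset.mul_sum]
  apply Finset.sum_le_sum
  intro a ha
  rw [DD_monomial, l1_monomial]
  push_cast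
  rw [abs_mul]
  apply mul_le_mul_of_nonneg_right _ (abs_nonneg _)
  rw [Nat.abs_cast]
  have h1 : ch a μ ≤ 2 ^ N := by
    calc ch a μ = ∏ i, (a i).choose (μ i) := rfl
      _ ≤ ∏ i, 2 ^ (a i) := Finset.prod_le_prod' (fun i _ => Nat.choose_le_two_pow _ _)
      _ = 2 ^ ∑ i, a i := by rw [Finset.prod_pow_eq_pow_sum]
      _ ≤ 2 ^ N := Nat.pow_le_pow_right (by norm_num) (hN a ha)
  exact_mod_cast h1

end L1

/-! ### index -/

section Index

variable {n : ℕ} (r : Fin n → ℕ) (ζ : Fin n → ℚ)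

/-- weight of an exponent -/
noncomputable def wt (κ : Fin n →₀ ℕ) : ℝ := ∑ h, (κ h : ℝ) / r h

theorem wt_add (κ μ : Fin n →₀ ℕ) : wt r (κ + μ) = wt r κ + wt r μ := by
  simp [wt, add_div, Finset.sum_add_distrib]

theorem wt_nonneg (κ : Fin n →₀ ℕ) : 0 ≤ wt r κ :=
  Finset.sum_nonneg (fun _ _ => by positivity)

/-- index at least `c` -/
def InI (c : ℝ) (f : MvPolynomial (Fin n) ℚ) : Prop :=
  ∀ κ, MvPolynomial.coeff κ (TT ζ f) ≠ 0 → c ≤ wt r κ

variable {r ζ}

theorem InI_zero (f : MvPolynomial (Fin n) ℚ) : InI r ζ 0 f := fun κ _ => wt_nonneg r κ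

theorem InI_mono {c c' : ℝ} (h : c' ≤ c) {f : MvPolynomial (Fin n) ℚ} (hf : InI r ζ c f) :
    InI r ζ c' f := fun κ hκ => h.trans (hf κ hκ)

theorem InI_add {c : ℝ} {f g : MvPolynomial (Fin n) ℚ} (hf : InI r ζ c f) (hg : InI r ζ c g) :
    InI r ζ c (f + g) := by
  intro κ hκ
  rw [map_add, MvPolynomial.coeff_add] at hκ
  by_cases h : MvPolynomial.coeff κ (TT ζ f) = 0
  · rw [h, zero_add] at hκ
    exact hg κ hκ
  · exact hf κ h

theorem InI_sum {ι : Type*} {c : ℝ} (s : Finset ι) {f : ι → MvPolynomial (Fin n) ℚ}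
    (hf : ∀ i ∈ s, InI r ζ c (f i)) : InI r ζ c (∑ i ∈ s, f i) := by
  classical
  induction s using Finset.induction_on with
  | empty =>
    intro κ hκ
    simp at hκ
  | insert i s hi ih =>
    rw [Finset.sum_insert hi]
    exact InI_add (hf i (Finset.mem_insert_self i s))
      (ih (fun j hj => hf j (Finset.mem_insert_of_mem hj)))

theorem InI_mul {c c' : ℝ} {f g : MvPolynomial (Fin n) ℚ} (hf : InI r ζ c f)
    (hg : InI r ζ c' g) : InI r ζ (c + c') (f * g) := by
  classical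
  intro κ hκ
  rw [map_mul, MvPolynomial.coeff_mul] at hκ
  obtain ⟨x, hx, hne⟩ := Finset.exists_ne_zero_of_sum_ne_zero hκ
  rw [HasAntidiagonal.mem_antidiagonal] at hx
  rw [← hx, wt_add]
  exact add_le_add (hf _ (left_ne_zero_of_mul hne)) (hg _ (right_ne_zero_of_mul hne))

theorem InI_prod {ι : Type*} (s : Finset ι) {c : ι → ℝ} {f : ι → MvPolynomial (Fin n) ℚ}
    (hf : ∀ i ∈ s, InI r ζ (c i) (f i)) : InI r ζ (∑ i ∈ s, c i) (∏ i ∈ s, f i) := by
  classical
  induction s using Finset.induction_on with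
  | empty => simpa using InI_zero _
  | insert i s hi ih =>
    rw [Finset.sum_insert hi, Finset.prod_insert hi]
    exact InI_mul (hf i (Finset.mem_insert_self i s))
      (ih (fun j hj => hf j (Finset.mem_insert_of_mem hj)))

theorem InI_det {k : ℕ} {c : Fin k → ℝ} (E : Matrix (Fin k) (Fin k) (MvPolynomial (Fin n) ℚ))
    (hE : ∀ a b, InI r ζ (c b) (E a b)) : InI r ζ (∑ b, c b) E.det := by
  rw [Matrix.det_apply']
  apply InI_sum
  intro π _
  have h1 := InI_prod (r := r) (ζ := ζ) Finset.univ (c := c) (f := fun i => E (π i) i)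
    (fun i _ => hE _ _)
  have h2 := InI_mul (InI_zero (r := r) (ζ := ζ) (((Equiv.Perm.sign π : ℤ) : MvPolynomial (Fin n) ℚ))) h1
  rw [zero_add] at h2
  exact h2

theorem InI_DD {c : ℝ} {f : MvPolynomial (Fin n) ℚ} (hf : InI r ζ c f) (μ : Fin n →₀ ℕ) :
    InI r ζ (c - wt r μ) (DD μ f) := by
  intro κ hκ
  rw [TT_DD, coeff_DD] at hκ
  have := hf _ (right_ne_zero_of_mul hκ)
  rw [wt_add] at this
  linarith

end Index

/-! ### a numerical inequality -/

theorem sum_lower (r : ℕ) (hr : 0 < r) (s : ℝ) (hs : 0 < s) (hs1 : s ≤ 1) (k : ℕ) (hk : k ≤ r + 1) :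
    (k : ℝ) * s ^ 2 / 4 ≤ ∑ b : Fin k, max 0 (s - (b : ℕ) / (r : ℝ)) := by
  have hr' : (0 : ℝ) < r := by exact_mod_cast hr
  set u : ℕ → ℝ := fun b => max 0 (s - b / (r : ℝ)) with hu
  have hu0 : u 0 = s := by simp [hu, hs.le]
  have hunn : ∀ b, 0 ≤ u b := fun b => le_max_left _ _
  have hstep : ∀ b, (r : ℝ) / 2 * (u b ^ 2 - u (b+1) ^ 2) ≤ u b := by
    intro b
    have h1 : u (b+1) ≤ u b := by
      apply max_le_max le_rfl
      apply sub_le_sub_left
      apply div_le_div_of_nonneg_right _ hr'.le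
      push_cast; linarith
    have h2 : u b - u (b+1) ≤ 1 / r := by
      have : u b ≤ u (b+1) + 1 / r := by
        apply max_le
        · have := hunn (b+1); positivity
        · have h3 : s - ((b+1 : ℕ) : ℝ) / r ≤ u (b+1) := le_max_right _ _
          have h4 : ((b+1 : ℕ) : ℝ) / r = b / r + 1 / r := by push_cast; ring
          rw [h4] at h3; linarith
      linarith
    have h3 : (u b - u (b+1)) * (u b + u (b+1)) ≤ (1 / r) * (2 * u b) := by
      apply mul_le_mul h2 (by linarith) (by have := hunn b; have := hunn (b+1); linarith) (by positivity)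
    calc (r : ℝ) / 2 * (u b ^ 2 - u (b+1) ^ 2) = (r : ℝ) / 2 * ((u b - u (b+1)) * (u b + u (b+1))) := by ring
      _ ≤ (r : ℝ) / 2 * ((1 / r) * (2 * u b)) := mul_le_mul_of_nonneg_left h3 (by positivity)
      _ = u b := by field_simp
  have htel : ∀ K : ℕ, (r : ℝ) / 2 * (s ^ 2 - u K ^ 2) ≤ ∑ b ∈ Finset.range K, u b := by
    intro K
    induction K with
    | zero => simp [hu0]
    | succ K ih =>
      rw [Finset.sum_range_succ]
      have := hstep K
      nlinarith
  have h5 := htel k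
  have h6 : ∑ b : Fin k, max 0 (s - (b : ℕ) / (r : ℝ)) = ∑ b ∈ Finset.range k, u b := by
    rw [Finset.sum_range]
  rw [h6]
  refine le_trans ?_ h5
  have hk2 : (k : ℝ) ≤ 2 * r := by
    have : k ≤ 2 * r := by omega
    exact_mod_cast this
  have hk0 : (0 : ℝ) ≤ k := by positivity
  rcases le_total s ((k : ℝ) / r) with h | h
  · have : u k = 0 := by
      simp only [hu]
      exact max_eq_left (by linarith)
    rw [this]
    nlinarith [sq_nonneg s]
  · have h7 : u k = s - k / r := by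
      simp only [hu]
      exact max_eq_right (by linarith)
    rw [h7]
    have h8 : (k : ℝ) ≤ s * r := by rwa [div_le_iff₀ hr'] at h
    have h9 : (r : ℝ) / 2 * (s ^ 2 - (s - k / r) ^ 2) = k * s - k ^ 2 / (2 * r) := by
      field_simp; ring
    rw [h9]
    have h10 : (k : ℝ) ^ 2 / (2 * r) ≤ k * s / 2 := by
      rw [div_le_iff₀ (by positivity)]
      nlinarith
    have h11 : 0 ≤ (k : ℝ) * s * (1 - s) := mul_nonneg (mul_nonneg hk0 hs.le) (sub_nonneg.mpr hs1)
    have h12 : 0 ≤ (k : ℝ) * s := mul_nonneg hk0 hs.le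
    nlinarith

end Pool.Agent.H393R2.RothNS
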