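import Mathlib
import Pool.Agent.H9.Lib.R_seed8.H393R2.Roth5

set_option autoImplicit false

open Finset

namespace Pool.Agent.H393R2.RothNS

/-- the statement proved by induction on the number of variables -/
def RothStmt (m : ℕ) : Prop :=
  ∀ σ : ℝ, 0 < σ → ∃ ω : ℝ, 0 < ω ∧
    ∀ (r : Fin m → ℕ) (R : ℝ), 0 < R → (∀ h, 0 < r h) →
      (∀ i j : Fin m, i < j → (r i : ℝ) ≤ ω * r j) → (∀ h, (r h : ℝ) ≤ ω * R) →
      ∀ (p q : Fin m → ℤ), (∀ h, IsCoprime (p h) (q h)) → (∀ h, q h ≠ 0) →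
        (∀ h, R ≤ r h * Real.log (max |(p h : ℝ)| |(q h : ℝ)|)) →
        ∀ P : MvPolynomial (Fin m) ℤ, P ≠ 0 → (∀ a ∈ P.support, ∀ h, a h ≤ r h) →
          (∀ a, |((MvPolynomial.coeff a P : ℤ) : ℝ)| ≤ Real.exp (ω * R)) →
          ∃ κ : Fin m →₀ ℕ, wt r κ < σ ∧
            MvPolynomial.eval (fun h => (p h : ℚ) / q h)
              (DD κ (MvPolynomial.map (Int.castRingHom ℚ) P)) ≠ 0

theorem roth_zero : RothStmt 0 := by
  intro σ hσ
  refine ⟨1, one_pos, ?_⟩
  intro r R _ _ _ _ p q _ _ _ P hP _ _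
  refine ⟨0, by simpa [wt] using hσ, ?_⟩
  rw [← coeff_TT]
  have h1 : P = MvPolynomial.C (MvPolynomial.coeff 0 P) := MvPolynomial.eq_C_of_isEmpty P
  have h2 : MvPolynomial.coeff 0 P ≠ 0 := by
    intro h; apply hP; rw [h1, h, map_zero]
  rw [h1, MvPolynomial.map_C]
  have hTC : ∀ (ζ : Fin 0 → ℚ) (c : ℚ), TT ζ (MvPolynomial.C c) = MvPolynomial.C c :=
    fun ζ c => by simp [TT]
  rw [hTC, MvPolynomial.coeff_C, if_pos rfl]
  simpa using h2

theorem card_support_le {m : ℕ} (P : MvPolynomial (Fin m) ℤ) (r : Fin m → ℕ)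
    (hP : ∀ a ∈ P.support, ∀ h, a h ≤ r h) : P.support.card ≤ 2 ^ ∑ h, r h := by
  classical
  have h1 : P.support.card ≤ (Fintype.piFinset (fun h => Finset.range (r h + 1))).card := by
    apply Finset.card_le_card_of_injOn (fun a : Fin m →₀ ℕ => (⇑a : Fin m → ℕ))
    · intro a ha
      rw [Finset.mem_coe] at ha ⊢
      rw [Fintype.mem_piFinset]
      intro h
      rw [Finset.mem_range]
      exact Nat.lt_succ_of_le (hP a ha h)
    · intro a _ b _ hab
      exact DFunLike.coe_injective hab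
  refine h1.trans ?_
  rw [Fintype.card_piFinset, ← Finset.prod_pow_eq_pow_sum]
  apply Finset.prod_le_prod'
  intro h _
  rw [Finset.card_range]
  exact Nat.lt_two_pow_self

theorem support_det {m k : ℕ} (E : Matrix (Fin k) (Fin k) (MvPolynomial (Fin m) ℤ)) (h : Fin m)
    (N : ℕ) (hE : ∀ a b, MvPolynomial.degreeOf h (E a b) ≤ N) :
    MvPolynomial.degreeOf h E.det ≤ k * N := by
  rw [Matrix.det_apply]
  refine (MvPolynomial.degreeOf_sum_le h _ _).trans ?_
  apply Finset.sup_le
  intro π _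
  have h2 : MvPolynomial.degreeOf h (∏ i, E (π i) i) ≤ k * N := by
    refine (MvPolynomial.degreeOf_prod_le h _ _).trans ?_
    refine (Finset.sum_le_card_nsmul _ _ N (fun i _ => hE _ _)).trans ?_
    simp
  rcases Int.units_eq_one_or (Equiv.Perm.sign π) with hs | hs
  · rw [hs, one_smul]; exact h2
  · rw [hs, Units.neg_smul, one_smul, MvPolynomial.degreeOf_neg]
    exact h2

theorem roth_succ (m : ℕ) (ih : RothStmt m) : RothStmt (m + 1) := by
  classical
  intro σ hσ
  -- choice of parameters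
  set σ₁ : ℝ := min σ 1 with hσ₁
  have hσ₁pos : 0 < σ₁ := lt_min hσ one_pos
  have hσ₁le : σ₁ ≤ 1 := min_le_right _ _
  have hσ₁le' : σ₁ ≤ σ := min_le_left _ _
  set σ' : ℝ := σ₁ ^ 2 / 32 with hσ'
  have hσ'pos : 0 < σ' := by positivity
  obtain ⟨ω₀, hω₀, H⟩ := ih σ' hσ'pos
  set ωm : ℝ := min (σ₁ / 2) (min ω₀ (σ' / 2)) with hωm
  have hωmpos : 0 < ωm := lt_min (by positivity) (lt_min hω₀ (by positivity))
  set ω : ℝ := ωm / (1 + 3 * (m + 1)) with hω
  have hden : (0 : ℝ) < 1 + 3 * (m + 1) := by positivity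
  have hωpos : 0 < ω := by positivity
  have hωmul : ω * (1 + 3 * (m + 1)) = ωm := by rw [hω]; field_simp
  have hωle : ω ≤ ωm := by
    rw [← hωmul]; apply le_mul_of_one_le_right hωpos.le
    have : (0 : ℝ) ≤ m := by positivity
    linarith
  have hωmσ : ωm ≤ σ₁ / 2 := min_le_left _ _
  have hωm0 : ωm ≤ ω₀ := (min_le_right _ _).trans (min_le_left _ _)
  have hωm1 : ωm ≤ σ' / 2 := (min_le_right _ _).trans (min_le_right _ _)
  refine ⟨ω, hωpos, ?_⟩
  intro r R hR hr hri hrR p q hpq hq hlog P hP hdeg hco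
  by_contra hcon
  push Not at hcon
  set ζ : Fin (m+1) → ℚ := fun h => (p h : ℚ) / q h with hζ
  set PQ : MvPolynomial (Fin (m+1)) ℚ := MvPolynomial.map (Int.castRingHom ℚ) P with hPQ
  have hinj : Function.Injective (Int.castRingHom ℚ) := RingHom.injective_int _
  have hPQ0 : PQ ≠ 0 := by
    intro h
    apply hP
    exact (MvPolynomial.map_injective _ hinj) (by rw [← hPQ, h, map_zero])
  have hsupPQ : ∀ a ∈ PQ.support, ∀ h, a h ≤ r h := by
    intro a ha h
    apply hdeg a _ h
    exact MvPolynomial.support_map_subset _ _ ha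
  -- index of P
  have hPI : InI r ζ σ₁ PQ := by
    intro κ hκ
    rw [coeff_TT] at hκ
    by_contra hlt
    exact hκ (hcon κ (lt_of_lt_of_le (not_le.mp hlt) hσ₁le'))
  obtain ⟨k, hk0, hkr, f, g, hfg, hf, hg⟩ := sep_decomp PQ hPQ0 (r 0) (fun a ha => hsupPQ a ha 0)
  obtain ⟨μ, hμ, hU⟩ := gw_mv f hf
  have hV := gw_poly g hg
  set A : Matrix (Fin k) (Fin k) (MvPolynomial (Fin m) ℚ) := Matrix.of fun a i => DD (μ a) (f i) with hA
  set B : Matrix (Fin k) (Fin k) (Polynomial ℚ) :=
    Matrix.of fun b i : Fin k => Polynomial.hasseDeriv (b : ℕ) (g i) with hB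
  set U := A.det with hUdef
  set V := B.det with hVdef
  let E : Matrix (Fin k) (Fin k) (MvPolynomial (Fin (m+1)) ℤ) :=
    Matrix.of fun a b => DD (Finsupp.cons (b : ℕ) (μ a)) P
  have hEmap : E.map (MvPolynomial.map (Int.castRingHom ℚ)) =
      (A.map (i1 ℚ m)) * (B.map (i2 ℚ m)).transpose := by
    ext a b : 1
    rw [Matrix.map_apply, Matrix.mul_apply]
    simp only [E, Matrix.of_apply, DD_map]
    rw [← hPQ, hfg, map_sum]
    apply Finset.sum_congr rfl
    intro i _
    rw [DD_sep]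
    rfl
  set W := E.det with hW
  have hWmap : MvPolynomial.map (Int.castRingHom ℚ) W = i1 ℚ m U * i2 ℚ m V := by
    have h1 : MvPolynomial.map (Int.castRingHom ℚ) W =
        (E.map (MvPolynomial.map (Int.castRingHom ℚ))).det := by
      rw [hW]
      exact RingHom.map_det _ _
    rw [h1, hEmap, Matrix.det_mul, Matrix.det_transpose]
    congr 1
    · rw [hUdef]; exact (RingHom.map_det _ _).symm
    · rw [hVdef]; exact (RingHom.map_det _ _).symm
  have hWcoeff : ∀ n a, ((MvPolynomial.coeff (Finsupp.cons n a) W : ℤ) : ℚ) =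
      MvPolynomial.coeff a U * V.coeff n := by
    intro n a
    rw [← coeff_sep, ← hWmap, MvPolynomial.coeff_map]
    simp
  have hr' : ∀ h, (0 : ℝ) < r h := fun h => by exact_mod_cast hr h
  have hk0' : (0 : ℝ) < k := by exact_mod_cast hk0
  -- index of W
  set s : ℝ := σ₁ - ω with hs
  have hs0 : 0 < s := by
    have : ω ≤ σ₁ / 2 := hωle.trans hωmσ
    linarith
  have hs1 : s ≤ 1 := by linarith
  have hentry : ∀ a b : Fin k, InI r ζ (max 0 (s - (b : ℕ) / (r 0 : ℝ)))
      ((E.map (MvPolynomial.map (Int.castRingHom ℚ))) a b) := by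
    intro a b
    rw [Matrix.map_apply]
    simp only [E, Matrix.of_apply, DD_map]
    rw [← hPQ]
    have h1 := InI_DD hPI (Finsupp.cons (b : ℕ) (μ a))
    have hwt : wt r (Finsupp.cons (b : ℕ) (μ a)) ≤ (b : ℕ) / (r 0 : ℝ) + ω := by
      rw [wt, Fin.sum_univ_succ, Finsupp.cons_zero]
      apply add_le_add le_rfl
      have h2 : ∀ h : Fin m, ((Finsupp.cons (b : ℕ) (μ a) : Fin (m+1) →₀ ℕ) h.succ : ℝ) / r h.succ ≤
          (μ a h : ℝ) * (ω / r 0) := by
        intro h
        rw [Finsupp.cons_succ, div_eq_mul_inv]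
        apply mul_le_mul_of_nonneg_left _ (by positivity)
        have h3 := hri 0 h.succ (Fin.succ_pos h)
        rw [inv_le_iff_one_le_mul₀ (hr' _), div_mul_eq_mul_div, le_div_iff₀ (hr' 0), one_mul]
        exact h3
      refine (Finset.sum_le_sum (fun h _ => h2 h)).trans ?_
      rw [← Finset.sum_mul]
      have h4 : (∑ i : Fin m, ((μ a i : ℕ) : ℝ)) ≤ r 0 := by
        have : ∑ i, μ a i ≤ r 0 := (hμ a).trans (by have := a.isLt; omega)
        exact_mod_cast this
      calc (∑ i : Fin m, ((μ a i : ℕ) : ℝ)) * (ω / r 0) ≤ (r 0 : ℝ) * (ω / r 0) :=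
            mul_le_mul_of_nonneg_right h4 (by have := hr' 0; positivity)
        _ = ω := by have := hr' 0; field_simp
    rcases le_total 0 (s - (b : ℕ) / (r 0 : ℝ)) with h | h
    · rw [max_eq_right h]
      exact InI_mono (by linarith) h1
    · rw [max_eq_left h]
      exact InI_zero _
  have hWI' : InI r ζ (∑ b : Fin k, max 0 (s - (b : ℕ) / (r 0 : ℝ))) (i1 ℚ m U * i2 ℚ m V) := by
    rw [← hWmap]
    have h1 : MvPolynomial.map (Int.castRingHom ℚ) W =
        (E.map (MvPolynomial.map (Int.castRingHom ℚ))).det := by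
      rw [hW]
      exact RingHom.map_det _ _
    rw [h1]
    exact InI_det _ hentry
  have hlow := sum_lower (r 0) (hr 0) s hs0 hs1 k hkr
  -- size of W
  have hexp : l1 W ≤ Real.exp (ωm * (k * R)) := by
    set N := ∑ h, r h with hN
    have hPl1 : l1 P ≤ 2 ^ N * Real.exp (ω * R) := by
      rw [l1]
      refine (Finset.sum_le_card_nsmul _ _ (Real.exp (ω * R)) (fun a _ => hco a)).trans ?_
      rw [nsmul_eq_mul]
      apply mul_le_mul_of_nonneg_right _ (Real.exp_pos _).le
      have := card_support_le P r hdeg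
      exact_mod_cast this
    have hE : ∀ a b, l1 (E a b) ≤ 4 ^ N * Real.exp (ω * R) := by
      intro a b
      simp only [E, Matrix.of_apply]
      refine (l1_DD _ P N ?_).trans ?_
      · intro c hc
        exact Finset.sum_le_sum (fun h _ => hdeg c hc h)
      · calc (2 : ℝ) ^ N * l1 P ≤ 2 ^ N * (2 ^ N * Real.exp (ω * R)) :=
              mul_le_mul_of_nonneg_left hPl1 (by positivity)
          _ = 4 ^ N * Real.exp (ω * R) := by
              rw [← mul_assoc, ← mul_pow]; norm_num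
    have h1 := l1_det E _ hE
    have hr0N : r 0 ≤ N := Finset.single_le_sum (f := r) (fun _ _ => Nat.zero_le _) (Finset.mem_univ 0)
    have h2 : (k.factorial : ℝ) ≤ (2 ^ N) ^ k := by
      have h3 : k ≤ 2 ^ N := by
        calc k ≤ r 0 + 1 := hkr
          _ ≤ 2 ^ (r 0) := Nat.lt_two_pow_self
          _ ≤ 2 ^ N := Nat.pow_le_pow_right (by norm_num) hr0N
      have h4 : k.factorial ≤ (2 ^ N) ^ k := (Nat.factorial_le_pow k).trans (Nat.pow_le_pow_left h3 k)
      exact_mod_cast h4
    have hNR : (N : ℝ) ≤ (m + 1) * (ω * R) := by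
      rw [hN]; push_cast
      refine (Finset.sum_le_card_nsmul _ _ (ω * R) (fun h _ => hrR h)).trans ?_
      simp
    have h8 : (8 : ℝ) ≤ Real.exp 3 := by
      have h9 : (2 : ℝ) ≤ Real.exp 1 := by
        have := Real.add_one_le_exp (1 : ℝ); linarith
      have h10 : Real.exp 3 = Real.exp 1 ^ 3 := by
        rw [← Real.exp_nat_mul]; norm_num
      rw [h10]
      calc (8 : ℝ) = 2 ^ 3 := by norm_num
        _ ≤ _ := pow_le_pow_left₀ (by norm_num) h9 3
    have h11 : (8 : ℝ) ^ N * Real.exp (ω * R) ≤ Real.exp (ωm * R) := by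
      calc (8 : ℝ) ^ N * Real.exp (ω * R) ≤ Real.exp 3 ^ N * Real.exp (ω * R) :=
            mul_le_mul_of_nonneg_right (pow_le_pow_left₀ (by norm_num) h8 N) (Real.exp_pos _).le
        _ = Real.exp (N * 3 + ω * R) := by rw [← Real.exp_nat_mul, Real.exp_add]
        _ ≤ Real.exp (ωm * R) := by
          apply Real.exp_le_exp.mpr
          rw [← hωmul]
          nlinarith
    calc l1 W ≤ (k.factorial : ℝ) * (4 ^ N * Real.exp (ω * R)) ^ k := h1
      _ ≤ (2 ^ N) ^ k * (4 ^ N * Real.exp (ω * R)) ^ k :=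
          mul_le_mul_of_nonneg_right h2 (by positivity)
      _ = ((8 : ℝ) ^ N * Real.exp (ω * R)) ^ k := by
          rw [← mul_pow, ← mul_assoc, ← mul_pow]; norm_num
      _ ≤ (Real.exp (ωm * R)) ^ k := pow_le_pow_left₀ (by positivity) h11 k
      _ = Real.exp (ωm * (k * R)) := by
          rw [← Real.exp_nat_mul]; congr 1; ring
  -- the integral polynomials
  have hkR : 0 < (k : ℝ) * R := by positivity
  obtain ⟨n₀, hn₀⟩ : ∃ n, V.coeff n ≠ 0 := by
    by_contra h
    push Not at h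
    exact hV (Polynomial.ext (by simpa using h))
  obtain ⟨a₀, ha₀⟩ : ∃ a, MvPolynomial.coeff a U ≠ 0 := MvPolynomial.ne_zero_iff.mp hU
  -- U₁
  set U₁ : MvPolynomial (Fin m) ℤ := (MvPolynomial.finSuccEquiv ℤ m W).coeff n₀ with hU₁
  have hU₁c : ∀ a, MvPolynomial.coeff a U₁ = MvPolynomial.coeff (Finsupp.cons n₀ a) W :=
    fun a => MvPolynomial.finSuccEquiv_coeff_coeff _ _ _
  have hU₁map : MvPolynomial.map (Int.castRingHom ℚ) U₁ = V.coeff n₀ • U := by
    ext a
    rw [MvPolynomial.coeff_map, MvPolynomial.coeff_smul, hU₁c]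
    have := hWcoeff n₀ a
    simp only [eq_intCast, smul_eq_mul]
    rw [this, mul_comm]
  have hU₁0 : U₁ ≠ 0 := by
    intro h
    rw [h, map_zero] at hU₁map
    exact (smul_ne_zero hn₀ hU) hU₁map.symm
  have hdegW : ∀ h, MvPolynomial.degreeOf h W ≤ k * r h := by
    intro h
    apply support_det
    intro a b
    rw [MvPolynomial.degreeOf_le_iff]
    intro c hc
    simp only [E, Matrix.of_apply] at hc
    rw [MvPolynomial.mem_support_iff, coeff_DD] at hc
    have := hdeg _ (MvPolynomial.mem_support_iff.mpr (right_ne_zero_of_mul hc)) h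
    rw [Finsupp.add_apply] at this
    omega
  obtain ⟨κ', hκ'wt, hκ'⟩ := H (fun h => k * r h.succ) (k * R) hkR
    (fun h => Nat.mul_pos hk0 (hr _))
    (by
      intro i j hij
      have h1 := hri i.succ j.succ (Fin.succ_lt_succ_iff.mpr hij)
      push_cast
      calc (k : ℝ) * r i.succ ≤ k * (ω * r j.succ) := mul_le_mul_of_nonneg_left h1 hk0'.le
        _ ≤ k * (ω₀ * r j.succ) := by
            apply mul_le_mul_of_nonneg_left _ hk0'.le
            exact mul_le_mul_of_nonneg_right (hωle.trans hωm0) (hr' _).le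
        _ = ω₀ * (k * r j.succ) := by ring)
    (by
      intro h
      push_cast
      calc (k : ℝ) * r h.succ ≤ k * (ω * R) := mul_le_mul_of_nonneg_left (hrR _) hk0'.le
        _ ≤ k * (ω₀ * R) := by
            apply mul_le_mul_of_nonneg_left _ hk0'.le
            exact mul_le_mul_of_nonneg_right (hωle.trans hωm0) hR.le
        _ = ω₀ * (k * R) := by ring)
    (fun h => p h.succ) (fun h => q h.succ) (fun h => hpq _) (fun h => hq _)
    (by
      intro h
      push_cast
      rw [mul_assoc]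
      exact mul_le_mul_of_nonneg_left (hlog _) hk0'.le)
    U₁ hU₁0
    (by
      intro a ha h
      rw [MvPolynomial.mem_support_iff, hU₁c] at ha
      have := (MvPolynomial.degreeOf_le_iff.mp (hdegW h.succ)) _ (MvPolynomial.mem_support_iff.mpr ha)
      rwa [Finsupp.cons_succ] at this)
    (by
      intro a
      rw [hU₁c]
      refine (coeff_le_l1 _ _).trans (hexp.trans ?_)
      apply Real.exp_le_exp.mpr
      exact mul_le_mul_of_nonneg_right hωm0 hkR.le)
  -- V₁
  set Nv : ℕ := k * r 0 with hNv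
  set V₁ : Polynomial ℤ := ∑ n ∈ Finset.range (Nv + 1),
    Polynomial.monomial n (MvPolynomial.coeff (Finsupp.cons n a₀) W) with hV₁
  have hV₁c : ∀ n, V₁.coeff n = MvPolynomial.coeff (Finsupp.cons n a₀) W := by
    intro n
    rw [hV₁, Polynomial.finsetSum_coeff]
    simp_rw [Polynomial.coeff_monomial]
    rw [Finset.sum_ite_eq']
    split_ifs with hn
    · rfl
    · by_contra hne
      have := (MvPolynomial.degreeOf_le_iff.mp (hdegW 0)) _
        (MvPolynomial.mem_support_iff.mpr (Ne.symm hne))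
      rw [Finsupp.cons_zero] at this
      apply hn
      rw [Finset.mem_range]
      omega
  have hV₁map : V₁.map (Int.castRingHom ℚ) = MvPolynomial.coeff a₀ U • V := by
    ext n
    rw [Polynomial.coeff_map, Polynomial.coeff_smul, hV₁c]
    have := hWcoeff n a₀
    simp only [eq_intCast, smul_eq_mul]
    exact this
  have hV₁0 : V₁ ≠ 0 := by
    intro h
    rw [h, Polynomial.map_zero] at hV₁map
    exact (smul_ne_zero ha₀ hV) hV₁map.symm
  obtain ⟨ν, hνwt, hν⟩ := one_var σ' (σ' / 2) (k * R) (by linarith) hσ'pos hkR (k * r 0)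
    (Nat.mul_pos hk0 (hr 0)) (p 0) (q 0) (hpq 0) (hq 0)
    (by
      push_cast
      rw [mul_assoc]
      exact mul_le_mul_of_nonneg_left (hlog _) hk0'.le) V₁ hV₁0
    (by
      intro n
      rw [hV₁c]
      refine (coeff_le_l1 _ _).trans (hexp.trans ?_)
      apply Real.exp_le_exp.mpr
      exact mul_le_mul_of_nonneg_right hωm1 hkR.le)
  -- combine
  have hUne : MvPolynomial.eval (fun h : Fin m => ζ h.succ) (DD κ' U) ≠ 0 := by
    intro h0
    apply hκ'
    rw [hU₁map, map_smul, MvPolynomial.smul_eval]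
    simp only [hζ] at h0
    rw [h0, mul_zero]
  have hVne : (Polynomial.hasseDeriv ν V).eval (ζ 0) ≠ 0 := by
    intro h0
    apply hν
    rw [hV₁map, map_smul, Polynomial.eval_smul]
    simp only [hζ] at h0
    rw [h0, smul_zero]
  have hfin := hWI' (Finsupp.cons ν κ') (by
    rw [coeff_TT, DD_sep, map_mul, eval_i1, eval_i2]
    exact mul_ne_zero hUne hVne)
  have hwt2 : wt r (Finsupp.cons ν κ') < k * σ' + k * σ' := by
    rw [wt, Fin.sum_univ_succ, Finsupp.cons_zero]
    apply add_lt_add_of_lt_of_le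
    · push_cast at hνwt
      rw [div_lt_iff₀ (by have := hr' 0; positivity)] at hνwt
      rw [div_lt_iff₀ (hr' 0)]
      calc (ν : ℝ) < σ' * (k * r 0) := hνwt
        _ = k * σ' * r 0 := by ring
    · have h1 : ∑ h : Fin m, ((Finsupp.cons ν κ' : Fin (m+1) →₀ ℕ) h.succ : ℝ) / r h.succ =
          k * wt (fun h : Fin m => k * r h.succ) κ' := by
        rw [wt, Finset.mul_sum]
        refine Finset.sum_congr rfl (fun h _ => ?_)
        rw [Finsupp.cons_succ]
        push_cast
        have := hr' h.succ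
        field_simp
      rw [h1]
      exact mul_le_mul_of_nonneg_left hκ'wt.le hk0'.le
  have hsge : σ₁ / 2 ≤ s := by
    have : ω ≤ σ₁ / 2 := hωle.trans hωmσ
    linarith
  have hs2 : σ₁ ^ 2 / 4 ≤ s ^ 2 := by nlinarith
  have : (k : ℝ) * (σ₁ ^ 2 / 4) / 4 ≤ k * s ^ 2 / 4 := by
    apply div_le_div_of_nonneg_right _ (by norm_num)
    exact mul_le_mul_of_nonneg_left hs2 hk0'.le
  have hσ'2 : k * σ' + k * σ' = (k : ℝ) * (σ₁ ^ 2 / 4) / 4 := by
    rw [hσ']; ring
  linarith

theorem roth_mv (m : ℕ) : RothStmt m := by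
  induction m with
  | zero => exact roth_zero
  | succ m ih => exact roth_succ m ih

end Pool.Agent.H393R2.RothNS
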