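import Pool.Agent.H9.Lib.R_seed8.H393R2.ThmA
import Pool.Agent.H9.Lib.R_seed8.H393R2.Roth
import Pool.Agent.H9.Lib.R_seed8.H393R2.Aux2

set_option autoImplicit false

namespace Pool.Agent.H393R2

theorem auxPolyStmt : AuxPolyStmt := by
  intro n hn Y ξ hξ τ hτ
  exact aux_poly n hn Y ξ hξ τ hτ

theorem rothStmt : RothStmt := by
  intro m σ hσ
  exact roth_lemma m σ hσ

end Pool.Agent.H393R2
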