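import Mathlib
import Pool.Agent.H9.Lib.R_seed8.H393R2.Gap
import Pool.Agent.H9.Lib.R_seed8.H393R2.Heights
import Pool.Agent.H9.Lib.R_seed8.H393R2.Codim

set_option autoImplicit false

open Finset

namespace Pool.Agent.H393R2

/-- statement of the geometry of numbers input -/
def GeomStmt : Prop :=
  ∀ (n : ℕ) (_ : 2 ≤ n),
    ∃ C : ℝ, 1 ≤ C ∧ ∀ (L Ls : Matrix (Fin n) (Fin n) ℝ), |L.det| = 1 → Ls.transpose * L = 1 →
      ∀ (x : Fin n → ℤ), x ≠ 0 → ∀ κ₁ κ₂ κ₃ : ℝ, 0 < κ₁ → 0 < κ₃ → C * κ₁ < κ₂ →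
        (∀ l, |(L.mulVec (fun i => (x i : ℝ))) l| ≤ κ₁) →
        (∀ x' : Fin n → ℤ, LinearIndependent ℤ ![x, x'] →
          ∃ l, κ₂ ≤ |(L.mulVec (fun i => (x' i : ℝ))) l|) →
        (∀ w : Fin n → ℤ, w ≠ 0 → ∃ l, κ₃ ≤ |(Ls.mulVec (fun i => (w i : ℝ))) l|) →
        ∃ A : Fin n → ℝ, (∀ l, κ₃ ≤ A l ∧ A l ≤ C / κ₂) ∧ ∏ l, A l ≤ C * κ₁ / κ₂ ∧
          ∃ w : Fin (n - 1) → Fin n → ℤ, LinearIndependent ℤ w ∧
            (∀ i, ∑ l, x l * w i l = 0) ∧
            ∀ i l, |(Ls.mulVec (fun j => (w i j : ℝ))) l| ≤ A l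

/-- one application of the geometry of numbers -/
lemma geom_apply {s : ℕ} (C : ℝ) (hC : 1 ≤ C)
    (hgeom : ∀ (L Ls : Matrix (Fin (s + 2)) (Fin (s + 2)) ℝ), |L.det| = 1 →
      Ls.transpose * L = 1 →
      ∀ (x : Fin (s + 2) → ℤ), x ≠ 0 → ∀ κ₁ κ₂ κ₃ : ℝ, 0 < κ₁ → 0 < κ₃ → C * κ₁ < κ₂ →
        (∀ l, |(L.mulVec (fun i => (x i : ℝ))) l| ≤ κ₁) →
        (∀ x' : Fin (s + 2) → ℤ, LinearIndependent ℤ ![x, x'] →
          ∃ l, κ₂ ≤ |(L.mulVec (fun i => (x' i : ℝ))) l|) →
        (∀ w : Fin (s + 2) → ℤ, w ≠ 0 → ∃ l, κ₃ ≤ |(Ls.mulVec (fun i => (w i : ℝ))) l|) →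
        ∃ A : Fin (s + 2) → ℝ, (∀ l, κ₃ ≤ A l ∧ A l ≤ C / κ₂) ∧ ∏ l, A l ≤ C * κ₁ / κ₂ ∧
          ∃ w : Fin (s + 2 - 1) → Fin (s + 2) → ℤ, LinearIndependent ℤ w ∧
            (∀ i, ∑ l, x l * w i l = 0) ∧
            ∀ i l, |(Ls.mulVec (fun j => (w i j : ℝ))) l| ≤ A l)
    (δ ε1 ε0 : ℝ) (hδ : 0 < δ) (hε1 : 0 < ε1) (hε0 : 0 < ε0) (hε01 : ε0 ≤ ε1 / 2)
    (hε1δ : ε1 ≤ δ / 2)
    (N : ℝ) (hN1 : (4 * Real.log C + 1) / ε1 ≤ N) (hN2 : Real.log C + 1 ≤ N)
    (θ : Fin (s + 1) → ℝ) (lam : Fin (s + 1) → ℤ) (hlam : lam ≠ 0) (P : ℤ)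
    (hle : ∀ i, |(lam i : ℝ)| ≤ Real.exp (ε0 * N))
    (hf : |∑ i, θ i * (lam i : ℝ) - P| ≤ Real.exp (-(δ * N)))
    (hgap : ∀ (lam' : Fin (s + 1) → ℤ) (P' : ℤ), (∀ i, |(lam' i : ℝ)| ≤ Real.exp (ε1 * N)) →
      |∑ i, θ i * (lam' i : ℝ) - P'| ≤ Real.exp (-(δ / 2 * N)) →
      (∀ u v : ℤ, (∀ i, u * lam i - v * lam' i = 0) → u * P - v * P' = 0 → v = 0) → False) :
    ∃ (A : Fin (s + 2) → ℝ) (w : Fin (s + 1) → Fin (s + 2) → ℤ), (∀ l, 0 < A l) ∧
      (∀ l, |-Real.log (A l)| ≤ (2 * δ + 1) * N) ∧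
      (ε1 / 4 * N ≤ ∑ l, -Real.log (A l)) ∧ LinearIndependent ℤ w ∧
      (∀ i, ∑ l, (Fin.cons (-P) lam : Fin (s + 2) → ℤ) l * w i l = 0) ∧
      (∀ i, |(w i 0 : ℝ)| ≤ A 0) ∧ (∀ i (j : Fin (s + 1)),
        |(w i j.succ : ℝ) - θ j * w i 0| ≤ A j.succ) := by
  have hlogC : 0 ≤ Real.log C := Real.log_nonneg hC
  have hC0 : 0 < C := by linarith
  have hN0 : 0 < N := by linarith
  set n : ℝ := (s : ℝ) + 2 with hn
  have hn0 : 0 < n := by rw [hn]; positivity
  set a : ℝ := δ / n with ha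
  have ha0 : 0 < a := by rw [ha]; positivity
  have han : ((s : ℝ) + 1) * a = δ - a := by
    rw [ha, hn]; field_simp; ring
  set T : ℝ := Real.exp (a * N) with hT
  have hT0 : 0 < T := Real.exp_pos _
  have hT1 : 1 ≤ T := by rw [hT]; exact Real.one_le_exp (by positivity)
  have hTs : T ^ (s + 1) = Real.exp ((δ - a) * N) := by
    rw [hT, ← Real.exp_nat_mul]
    congr 1
    push_cast
    rw [← mul_assoc, han]
  have hTinv : T⁻¹ = Real.exp (-(a * N)) := by rw [hT, Real.exp_neg]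
  set κ1 : ℝ := Real.exp ((ε0 - a) * N) with hκ1
  set κ2 : ℝ := Real.exp ((ε1 - a) * N) with hκ2
  set κ3 : ℝ := Real.exp (-((δ - a) * N)) with hκ3
  set x : Fin (s + 2) → ℤ := Fin.cons (-P) lam with hx
  have hx0 : x 0 = -P := rfl
  have hxs : ∀ j : Fin (s + 1), x j.succ = lam j := fun j => rfl
  rw [div_le_iff₀ hε1] at hN1
  have hkey : Real.log C + ε1 / 4 * N ≤ (ε1 - ε0) * N := by nlinarith
  obtain ⟨A', hA'1, hA'2, w, hw1, hw2, hw3⟩ := hgeom (Lmat (s + 1) T θ) (Lsmat (s + 1) T θ)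
    (by rw [Lmat_det _ _ hT0]; simp) (Lsmat_mul _ _ hT0 _) x
    (by
      intro h
      apply hlam
      funext j
      rw [← hxs, h]; rfl)
    κ1 κ2 κ3 (Real.exp_pos _) (Real.exp_pos _)
    (by
      rw [hκ1, hκ2]
      calc C * Real.exp ((ε0 - a) * N) = Real.exp (Real.log C) * Real.exp ((ε0 - a) * N) := by
            rw [Real.exp_log hC0]
        _ = Real.exp (Real.log C + (ε0 - a) * N) := by rw [Real.exp_add]
        _ < Real.exp ((ε1 - a) * N) := by
          apply Real.exp_lt_exp.mpr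
          have : 0 < ε1 / 4 * N := by positivity
          nlinarith)
    (by
      intro l
      refine Fin.cases ?_ (fun j => ?_) l
      · rw [Lmat_mulVec_zero, abs_mul, abs_of_pos (by positivity), hTs, hx0]
        simp only [hxs]
        have h1 : ((-P : ℤ) : ℝ) + ∑ j, θ j * (lam j : ℝ) = ∑ j, θ j * (lam j : ℝ) - P := by
          push_cast; ring
        rw [h1]
        calc Real.exp ((δ - a) * N) * |∑ j, θ j * (lam j : ℝ) - P| ≤
              Real.exp ((δ - a) * N) * Real.exp (-(δ * N)) :=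
              mul_le_mul_of_nonneg_left hf (Real.exp_pos _).le
          _ = Real.exp ((δ - a) * N + -(δ * N)) := by rw [Real.exp_add]
          _ ≤ κ1 := by
            rw [hκ1]
            apply Real.exp_le_exp.mpr
            nlinarith
      · rw [Lmat_mulVec_succ, hxs, abs_mul, abs_of_pos (by positivity), hTinv]
        calc Real.exp (-(a * N)) * |(lam j : ℝ)| ≤ Real.exp (-(a * N)) * Real.exp (ε0 * N) :=
              mul_le_mul_of_nonneg_left (hle j) (Real.exp_pos _).le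
          _ = κ1 := by rw [← Real.exp_add, hκ1]; congr 1; ring)
    (by
      intro x' hind
      by_contra hcon
      push Not at hcon
      apply hgap (fun j => x' j.succ) (-(x' 0))
      · intro j
        have h1 := hcon j.succ
        rw [Lmat_mulVec_succ, abs_mul, abs_of_pos (by positivity), hTinv] at h1
        have h2 : |(x' j.succ : ℝ)| = Real.exp (a * N) * (Real.exp (-(a * N)) *
            |(x' j.succ : ℝ)|) := by
          rw [← mul_assoc, ← Real.exp_add]; simp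
        show |(x' j.succ : ℝ)| ≤ _
        rw [h2]
        calc Real.exp (a * N) * (Real.exp (-(a * N)) * |(x' j.succ : ℝ)|) ≤
              Real.exp (a * N) * κ2 := mul_le_mul_of_nonneg_left h1.le (Real.exp_pos _).le
          _ = Real.exp (ε1 * N) := by rw [hκ2, ← Real.exp_add]; congr 1; ring
      · have h1 := hcon 0
        rw [Lmat_mulVec_zero, abs_mul, abs_of_pos (by positivity), hTs] at h1
        have h3 : ∑ i, θ i * ((fun j : Fin (s + 1) => x' j.succ) i : ℝ) - ((-(x' 0) : ℤ) : ℝ) =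
            (x' 0 : ℝ) + ∑ j, θ j * (x' j.succ : ℝ) := by
          push_cast; ring
        rw [h3]
        set F : ℝ := |(x' 0 : ℝ) + ∑ j, θ j * (x' j.succ : ℝ)| with hF
        have h2 : F = Real.exp (-((δ - a) * N)) * (Real.exp ((δ - a) * N) * F) := by
          rw [← mul_assoc, ← Real.exp_add]; simp
        rw [h2]
        calc Real.exp (-((δ - a) * N)) * (Real.exp ((δ - a) * N) * F) ≤
              Real.exp (-((δ - a) * N)) * κ2 := mul_le_mul_of_nonneg_left h1.le (Real.exp_pos _).le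
          _ = Real.exp (-((δ - a) * N) + (ε1 - a) * N) := by rw [hκ2, ← Real.exp_add]
          _ ≤ Real.exp (-(δ / 2 * N)) := by
            apply Real.exp_le_exp.mpr
            nlinarith
      · intro u v h1 h2
        rw [LinearIndependent.pair_iff] at hind
        have h3 := hind u (-v) (by
          funext l
          refine Fin.cases ?_ (fun j => ?_) l
          · simp only [Pi.add_apply, Pi.smul_apply, smul_eq_mul, Pi.zero_apply, hx0]
            linarith
          · simp only [Pi.add_apply, Pi.smul_apply, smul_eq_mul, Pi.zero_apply, hxs]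
            have := h1 j
            linarith)
        linarith [h3.2])
    (by
      intro w hw
      by_cases hw0 : w 0 = 0
      · obtain ⟨j, hj⟩ : ∃ j : Fin (s + 1), w j.succ ≠ 0 := by
          by_contra hcon
          push Not at hcon
          apply hw
          funext l
          refine Fin.cases ?_ (fun j => ?_) l
          · exact hw0
          · exact hcon j
        refine ⟨j.succ, ?_⟩
        rw [Lsmat_mulVec_succ, hw0]
        simp only [Int.cast_zero, mul_zero, sub_zero]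
        rw [abs_mul, abs_of_pos hT0]
        have h1 : (1 : ℝ) ≤ |(w j.succ : ℝ)| := by exact_mod_cast Int.one_le_abs hj
        have h2 : κ3 ≤ 1 := by
          rw [hκ3, Real.exp_le_one_iff]
          have : 0 ≤ δ - a := by rw [← han]; positivity
          have := mul_nonneg this hN0.le
          linarith
        nlinarith
      · refine ⟨0, ?_⟩
        rw [Lsmat_mulVec_zero, hTs, abs_mul, abs_of_pos (by positivity), ← Real.exp_neg]
        have h1 : (1 : ℝ) ≤ |(w 0 : ℝ)| := by exact_mod_cast Int.one_le_abs hw0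
        have h2 := Real.exp_pos (-((δ - a) * N))
        rw [hκ3]
        nlinarith)
  -- the result
  have hA'pos : ∀ l, 0 < A' l := fun l => lt_of_lt_of_le (Real.exp_pos _) (hA'1 l).1
  have hlogA'1 : ∀ l, -((δ - a) * N) ≤ Real.log (A' l) := by
    intro l
    rw [Real.le_log_iff_exp_le (hA'pos l)]
    exact (hA'1 l).1
  have hlogA'2 : ∀ l, Real.log (A' l) ≤ Real.log C - (ε1 - a) * N := by
    intro l
    have h1 := Real.log_le_log (hA'pos l) (hA'1 l).2
    rw [Real.log_div hC0.ne' (Real.exp_pos _).ne', Real.log_exp] at h1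
    exact h1
  have hsumA' : ∑ l, Real.log (A' l) ≤ Real.log C + (ε0 - a) * N - (ε1 - a) * N := by
    rw [← Real.log_prod (fun l _ => (hA'pos l).ne')]
    have h1 := Real.log_le_log (Finset.prod_pos (fun l _ => hA'pos l)) hA'2
    rw [Real.log_div (by positivity) (Real.exp_pos _).ne', Real.log_mul hC0.ne'
      (Real.exp_pos _).ne', Real.log_exp, Real.log_exp] at h1
    exact h1
  refine ⟨Fin.cons (T ^ (s + 1) * A' 0) (fun j => T⁻¹ * A' j.succ), w, ?_, ?_, ?_, hw1, hw2,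
    ?_, ?_⟩
  · intro l
    refine Fin.cases ?_ (fun j => ?_) l
    · simp only [Fin.cons_zero]; have := hA'pos 0; positivity
    · simp only [Fin.cons_succ]; have := hA'pos j.succ; positivity
  · intro l
    refine Fin.cases ?_ (fun j => ?_) l
    · simp only [Fin.cons_zero]
      rw [Real.log_mul (by positivity) (hA'pos 0).ne', hTs, Real.log_exp, abs_neg, abs_le]
      have h1 := hlogA'1 0
      have h2 := hlogA'2 0
      have h3 : 0 ≤ ε1 * N := by positivity
      have h4 : 0 ≤ a * N := by positivity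
      have h5 : 0 ≤ δ * N := by positivity
      constructor <;> nlinarith
    · simp only [Fin.cons_succ]
      rw [Real.log_mul (by positivity) (hA'pos _).ne', hTinv, Real.log_exp, abs_neg, abs_le]
      have h1 := hlogA'1 j.succ
      have h2 := hlogA'2 j.succ
      have h3 : 0 ≤ ε1 * N := by positivity
      have h4 : 0 ≤ a * N := by positivity
      have h5 : 0 ≤ δ * N := by positivity
      constructor <;> nlinarith
  · rw [Fin.sum_univ_succ]
    simp only [Fin.cons_zero, Fin.cons_succ]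
    rw [Real.log_mul (by positivity) (hA'pos 0).ne', hTs, Real.log_exp]
    have h1 : ∑ j : Fin (s + 1), -Real.log (T⁻¹ * A' j.succ) =
        ((s : ℝ) + 1) * a * N - ∑ j : Fin (s + 1), Real.log (A' j.succ) := by
      have h2 : ∀ j : Fin (s + 1), -Real.log (T⁻¹ * A' j.succ) = a * N - Real.log (A' j.succ) := by
        intro j
        rw [Real.log_mul (by positivity) (hA'pos _).ne', hTinv, Real.log_exp]
        ring
      simp only [h2]
      rw [Finset.sum_sub_distrib, Finset.sum_const, Finset.card_univ, Fintype.card_fin,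
        nsmul_eq_mul]
      push_cast
      ring
    rw [h1, han]
    rw [Fin.sum_univ_succ] at hsumA'
    linarith
  · intro i
    have h1 := hw3 i 0
    rw [Lsmat_mulVec_zero, abs_mul, abs_of_pos (by positivity)] at h1
    simp only [Fin.cons_zero]
    rw [inv_mul_le_iff₀ (by positivity)] at h1
    exact h1
  · intro i j
    have h1 := hw3 i j.succ
    rw [Lsmat_mulVec_succ, abs_mul, abs_of_pos hT0] at h1
    simp only [Fin.cons_succ]
    rw [← div_eq_inv_mul, le_div_iff₀ hT0]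
    linarith

theorem bad_step (hAux : AuxPolyStmt) (hRoth : RothStmt) (hGeom : GeomStmt) {b : ℕ} (hb : 2 ≤ b)
    {ξ : ℝ} (hξ : IsIntegral ℤ ξ) (hirr : Irrational ξ) {s : ℕ}
    (hIH : ∀ g : Fin s → ℕ, Function.Injective g → ∀ δ : ℝ, 0 < δ → ¬ Bad b ξ s g δ)
    (g : Fin (s + 1) → ℕ) (hg : Function.Injective g) (δ : ℝ) (hδ : 0 < δ) :
    ¬ Bad b ξ (s + 1) g δ := by
  intro hB
  have hbR : (2 : ℝ) ≤ b := by exact_mod_cast hb
  have hb0 : (0 : ℝ) < b := by linarith
  have hlogb : 0 < Real.log b := Real.log_pos (by linarith)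
  have hIH' : ∀ j : Fin (s + 1), ∀ δ' : ℝ, 0 < δ' → ¬ Bad b ξ s (fun i => g (j.succAbove i)) δ' :=
    fun j => hIH _ (hg.comp Fin.succAbove_right_injective)
  have hξalg : IsAlgebraic ℚ ξ := by
    have h1 : IsAlgebraic ℤ ξ := hξ.isAlgebraic
    exact (IsFractionRing.isAlgebraic_iff ℤ ℚ ℝ).mp h1
  obtain ⟨ε1', hε1', L1, hgap⟩ := gap hb g δ (δ / 2) hδ (by positivity) hIH'
  obtain ⟨εu, hεu, Lu, hunif⟩ := uniform_IH g δ (fun j => hIH' j δ hδ)
  obtain ⟨j1, j2, hj1, hj12, ch, hch, Lh, hheights⟩ := heights hb hξalg hirr g hg δ hδ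
  obtain ⟨C, hC, hgeom⟩ := hGeom (s + 2) (by omega)
  set ε1 : ℝ := min ε1' (δ / 2) with hε1def
  have hε1 : 0 < ε1 := by rw [hε1def]; apply lt_min hε1'; positivity
  have hε11 : ε1 ≤ ε1' := min_le_left _ _
  have hε1δ : ε1 ≤ δ / 2 := min_le_right _ _
  set ε0 : ℝ := min (ε1 / 2) (min εu (δ / 2)) with hε0def
  have hε0 : 0 < ε0 := by
    rw [hε0def]; apply lt_min (by positivity); apply lt_min hεu; positivity
  have hε01 : ε0 ≤ ε1 / 2 := min_le_left _ _
  have hε0u : ε0 ≤ εu := le_trans (min_le_right _ _) (min_le_left _ _)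
  have hε0δ : ε0 ≤ δ / 2 := le_trans (min_le_right _ _) (min_le_right _ _)
  set Lmin : ℕ := max (max L1 (max Lu Lh)) (max 1 (max ⌈((4 * Real.log C + 1) / ε1) / Real.log b⌉₊
    ⌈(Real.log C + 1) / Real.log b⌉₊)) with hLmin
  have hdata : ∀ t : ℕ, ∃ L β : ℕ, max t Lmin ≤ L ∧ δ * L ≤ β ∧ δ * β ≤ L ∧
    ∃ lam : Fin (s + 1) → ℤ, lam ≠ 0 ∧ (∀ j, |(lam j : ℝ)| ≤ Real.exp (ε0 * (L * Real.log b))) ∧
      ∃ P : ℤ, |ξ * ∑ j, (lam j : ℝ) * (b : ℝ) ^ (L + g j * β) - P| ≤
        Real.exp (-(δ * (L * Real.log b))) := fun t => hB ε0 hε0 (max t Lmin)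
  choose L β hL hLβ hβL lam hlam hle P hf using hdata
  have hLt : ∀ t, t ≤ L t := fun t => le_trans (le_max_left _ _) (hL t)
  have hLm : ∀ t, Lmin ≤ L t := fun t => le_trans (le_max_right _ _) (hL t)
  have hLL1 : ∀ t, L1 ≤ L t := fun t => le_trans (by rw [hLmin]; simp) (hLm t)
  have hLLu : ∀ t, Lu ≤ L t := fun t => le_trans (by rw [hLmin]; simp) (hLm t)
  have hLLh : ∀ t, Lh ≤ L t := fun t => le_trans (by rw [hLmin]; simp) (hLm t)
  have hL1 : ∀ t, 1 ≤ L t := fun t => le_trans (by rw [hLmin]; simp) (hLm t)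
  have hLc1 : ∀ t, ((4 * Real.log C + 1) / ε1) ≤ L t * Real.log b := by
    intro t
    rw [← div_le_iff₀ hlogb]
    refine le_trans (Nat.le_ceil _) ?_
    exact_mod_cast le_trans (by rw [hLmin]; simp) (hLm t)
  have hLc2 : ∀ t, (Real.log C + 1) ≤ L t * Real.log b := by
    intro t
    rw [← div_le_iff₀ hlogb]
    refine le_trans (Nat.le_ceil _) ?_
    exact_mod_cast le_trans (by rw [hLmin]; simp) (hLm t)
  have hLpos : ∀ t, (0 : ℝ) < L t := fun t => by exact_mod_cast hL1 t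
  have hNpos : ∀ t, 0 < (L t : ℝ) * Real.log b := fun t => mul_pos (hLpos t) hlogb
  -- nonvanishing coefficients
  have hlamne : ∀ t i, lam t i ≠ 0 := by
    intro t i h0
    have h1 := hunif (L t) (β t) (hLLu t) (hLβ t) (hβL t) i (fun k => lam t (i.succAbove k))
      (by
        intro hz
        apply hlam t
        funext l
        rcases Fin.eq_self_or_eq_succAbove i l with h1 | ⟨k, h1⟩
        · rw [h1]; exact h0
        · rw [h1]; exact congrFun hz k)
      (by
        intro k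
        refine le_trans (hle t _) ?_
        apply Real.exp_le_exp.mpr
        exact mul_le_mul_of_nonneg_right hε0u (hNpos t).le) (P t)
    have h2 : ∑ j, (lam t j : ℝ) * (b : ℝ) ^ (L t + g j * β t) =
        ∑ k, (lam t (i.succAbove k) : ℝ) * (b : ℝ) ^ (L t + g (i.succAbove k) * β t) := by
      rw [Fin.sum_univ_succAbove _ i, h0]
      simp
    rw [← h2] at h1
    exact absurd (hf t) (not_le.mpr h1)
  set θ : ℕ → Fin (s + 1) → ℝ := fun t j => ξ * (b : ℝ) ^ (L t + g j * β t) with hθ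
  have hform : ∀ t (lam : Fin (s + 1) → ℤ), ∑ i, θ t i * (lam i : ℝ) =
      ξ * ∑ j, (lam j : ℝ) * (b : ℝ) ^ (L t + g j * β t) := by
    intro t lam
    rw [Finset.mul_sum]
    apply Finset.sum_congr rfl
    intro i _
    rw [hθ]; ring
  have hga : ∀ t, ∃ (A : Fin (s + 2) → ℝ) (w : Fin (s + 1) → Fin (s + 2) → ℤ), (∀ l, 0 < A l) ∧
      (∀ l, |-Real.log (A l)| ≤ (2 * δ + 1) * (L t * Real.log b)) ∧
      (ε1 / 4 * (L t * Real.log b) ≤ ∑ l, -Real.log (A l)) ∧ LinearIndependent ℤ w ∧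
      (∀ i, ∑ l, (Fin.cons (-(P t)) (lam t) : Fin (s + 2) → ℤ) l * w i l = 0) ∧
      (∀ i, |(w i 0 : ℝ)| ≤ A 0) ∧ (∀ i (j : Fin (s + 1)),
        |(w i j.succ : ℝ) - θ t j * w i 0| ≤ A j.succ) := by
    intro t
    apply geom_apply C hC hgeom δ ε1 ε0 hδ hε1 hε0 hε01 hε1δ (L t * Real.log b) (hLc1 t) (hLc2 t)
      (θ t) (lam t) (hlam t) (P t) (hle t)
    · rw [hform]; exact hf t
    · intro lam' P' h1 h2 h3
      rw [hform] at h2
      apply hgap (L t) (β t) (hLL1 t) (hLβ t) (hβL t) (lam t) lam' (P t) P' (hlam t)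
      · intro i
        refine le_trans (hle t i) (Real.exp_le_exp.mpr ?_)
        apply mul_le_mul_of_nonneg_right _ (hNpos t).le
        linarith
      · intro i
        refine le_trans (h1 i) (Real.exp_le_exp.mpr ?_)
        exact mul_le_mul_of_nonneg_right hε11 (hNpos t).le
      · refine le_trans (hf t) (Real.exp_le_exp.mpr ?_)
        have := hNpos t
        nlinarith
      · exact h2
      · exact h3
  choose A w hApos hAlog hAsum hwind hworth hw0 hwj using hga
  choose p q hpq hrat hq0 using fun t => exists_pq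
    ((Fin.cons (-(P t)) (lam t) : Fin (s + 2) → ℤ) j1 * (b : ℤ) ^
            ((Fin.cons 0 (fun i => L t + g i * β t) : Fin (s + 2) → ℕ) j1))
    (-((Fin.cons (-(P t)) (lam t) : Fin (s + 2) → ℤ) j2 * (b : ℤ) ^
            ((Fin.cons 0 (fun i => L t + g i * β t) : Fin (s + 2) → ℕ) j2)))
    (by
      obtain ⟨j, hj⟩ := Fin.exists_succ_eq.mpr hj1
      rw [← hj]
      simp only [Fin.cons_succ]
      have : (b : ℤ) ≠ 0 := by
        have : b ≠ 0 := by omega
        exact_mod_cast this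
      exact mul_ne_zero (hlamne t j) (pow_ne_zero _ this))
  set G : ℝ := ∑ i, (g i : ℝ) with hG
  have hG0 : 0 ≤ G := Finset.sum_nonneg (fun i _ => Nat.cast_nonneg _)
  have hGi : ∀ i, (g i : ℝ) ≤ G := fun i =>
    Finset.single_le_sum (f := fun i => (g i : ℝ)) (fun i _ => Nat.cast_nonneg _) (Finset.mem_univ i)
  set c : ℝ := ch + (2 * δ + 1) + (1 + G / δ) with hc
  have hGδ : 0 ≤ G / δ := by positivity
  have hc1 : 1 ≤ c := by rw [hc]; linarith
  refine codim_one_core hAux hRoth (s + 1) (by omega) b hb ξ hξ 0 j1 j2 hj1 hj12 c (ε1 / 4) hc1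
    (by positivity) (fun t => L t * Real.log b) ?_ hNpos
    (fun t => (Fin.cons 0 (fun i => L t + g i * β t) : Fin (s + 2) → ℕ)) (fun t => rfl) ?_
    (fun t => (Fin.cons (-(P t)) (lam t) : Fin (s + 2) → ℤ)) A hApos ?_ hAsum w hwind hworth ?_ ?_
    p q hpq ?_ hq0 ?_
  · -- N tends to infinity
    apply Filter.Tendsto.atTop_mul_const hlogb
    apply tendsto_natCast_atTop_atTop.comp
    exact Filter.tendsto_atTop_mono hLt Filter.tendsto_id
  · intro t l
    refine Fin.cases ?_ (fun j => ?_) l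
    · simp only [Fin.cons_zero]
      have := hNpos t
      simp only [Nat.cast_zero, zero_mul]
      positivity
    · simp only [Fin.cons_succ]
      push_cast
      rw [← mul_assoc]
      apply mul_le_mul_of_nonneg_right _ hlogb.le
      have h1 : (β t : ℝ) ≤ L t / δ := by
        rw [le_div_iff₀ hδ]; linarith [hβL t]
      have h2 : (g j : ℝ) * β t ≤ G * (L t / δ) :=
        mul_le_mul (hGi j) h1 (Nat.cast_nonneg _) hG0
      have h3 : G * (L t / δ) = (G / δ) * L t := by ring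
      have h4 : (1 + G / δ) * L t ≤ c * L t := by
        apply mul_le_mul_of_nonneg_right _ (hLpos t).le
        rw [hc]; linarith
      linarith
  · intro t l
    refine le_trans (hAlog t l) ?_
    apply mul_le_mul_of_nonneg_right _ (hNpos t).le
    rw [hc]; linarith
  · intro t i l
    refine Fin.cases ?_ (fun j => ?_) l
    · simp only [if_true, sub_zero]
      exact hw0 t i
    · rw [if_neg (Fin.succ_ne_zero j)]
      simp only [Fin.cons_succ]
      exact hwj t i j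
  · intro t
    obtain ⟨j, hj⟩ := Fin.exists_succ_eq.mpr hj1
    rw [← hj]
    simp only [Fin.cons_succ]
    exact hlamne t j
  · intro t
    have := hrat t
    rw [this]; ring
  · intro t
    have h1 := hheights (L t) (β t) (hLLh t) (hLβ t) (lam t) (P t) (hlamne t)
      (by
        intro i
        refine le_trans (hle t i) (Real.exp_le_exp.mpr ?_)
        exact mul_le_mul_of_nonneg_right hε0δ (hNpos t).le) (hf t) (p t) (q t) (hq0 t)
      (by rw [hrat t]; ring)
    refine le_trans ?_ h1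
    apply div_le_div_of_nonneg_left (hNpos t).le (by linarith)
    rw [hc]; linarith

theorem not_bad_integral (hAux : AuxPolyStmt) (hRoth : RothStmt) (hGeom : GeomStmt) {b : ℕ}
    (hb : 2 ≤ b) {ξ : ℝ} (hξ : IsIntegral ℤ ξ) (hirr : Irrational ξ) :
    ∀ (s : ℕ) (g : Fin s → ℕ), Function.Injective g → ∀ δ : ℝ, 0 < δ → ¬ Bad b ξ s g δ := by
  intro s
  induction s with
  | zero =>
    intro g _ δ _ hB
    obtain ⟨L, β, _, _, _, lam, hlam, _⟩ := hB 1 one_pos 0
    apply hlam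
    funext i
    exact Fin.elim0 i
  | succ s ih =>
    intro g hg δ hδ
    exact bad_step hAux hRoth hGeom hb hξ hirr ih g hg δ hδ

/-- Theorem A -/
theorem thmA_of (hAux : AuxPolyStmt) (hRoth : RothStmt) (hGeom : GeomStmt) (b : ℕ)
    (hb : 2 ≤ b) (ξ : ℝ) (hξ : IsAlgebraic ℚ ξ) (hirr : Irrational ξ) (d : ℕ)
    (δ : ℝ) (hδ : 0 < δ) :
    ∃ ε : ℝ, 0 < ε ∧ ∃ L0 : ℕ, ∀ L β : ℕ, L0 ≤ L → δ * L ≤ β → δ * β ≤ L →
      ∀ lam : Fin (d + 1) → ℤ, lam ≠ 0 → (∀ j, |(lam j : ℝ)| ≤ (b : ℝ) ^ (ε * L)) → ∀ P : ℤ,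
        (b : ℝ) ^ (-(δ * L)) < |ξ * ∑ j, (lam j : ℝ) * (b : ℝ) ^ (L + (j : ℕ) * β) - P| := by
  have hbR : (2 : ℝ) ≤ b := by exact_mod_cast hb
  have hb0 : (0 : ℝ) < b := by linarith
  have hlogb : 0 < Real.log b := Real.log_pos (by linarith)
  -- make ξ integral
  have hz : IsAlgebraic ℤ ξ := (IsFractionRing.isAlgebraic_iff ℤ ℚ ℝ).mpr hξ
  obtain ⟨k, hk0, hk⟩ := hz.exists_integral_multiple
  have hk0R : (k : ℝ) ≠ 0 := by exact_mod_cast hk0
  have hkint : IsIntegral ℤ ((k : ℝ) * ξ) := by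
    have : (k : ℝ) * ξ = k • ξ := by simp
    rw [this]; exact hk
  have hkirr : Irrational ((k : ℝ) * ξ) := by
    exact hirr.intCast_mul hk0
  have hnb := not_bad_integral hAux hRoth hGeom hb hkint hkirr (d + 1) (fun j => (j : ℕ))
    Fin.val_injective (δ / 2) (by positivity)
  obtain ⟨ε, hε, L0, hL0⟩ := not_bad_iff hnb
  refine ⟨ε, hε, max L0 ⌈2 * Real.log |(k : ℝ)| / (δ * Real.log b)⌉₊, ?_⟩
  intro L β hL hLβ hβL lam hlam hle P
  have hL1 : L0 ≤ L := le_trans (le_max_left _ _) hL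
  have hL2 : 2 * Real.log |(k : ℝ)| ≤ L * (δ * Real.log b) := by
    rw [← div_le_iff₀ (by positivity)]
    refine le_trans (Nat.le_ceil _) ?_
    exact_mod_cast le_trans (le_max_right _ _) hL
  have h1 := hL0 L β hL1
    (le_trans (mul_le_mul_of_nonneg_right (by linarith) (Nat.cast_nonneg _)) hLβ)
    (le_trans (mul_le_mul_of_nonneg_right (by linarith) (Nat.cast_nonneg _)) hβL) lam hlam
    (by
      intro j
      refine le_trans (hle j) ?_
      rw [Real.rpow_def_of_pos hb0]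
      apply le_of_eq
      congr 1; ring)
    (k * P)
  have h2 : (k : ℝ) * ξ * ∑ j, (lam j : ℝ) * (b : ℝ) ^ (L + (j : ℕ) * β) - ((k * P : ℤ) : ℝ) =
      k * (ξ * ∑ j, (lam j : ℝ) * (b : ℝ) ^ (L + (j : ℕ) * β) - P) := by
    push_cast; ring
  rw [h2, abs_mul] at h1
  have hkpos : 0 < |(k : ℝ)| := abs_pos.mpr hk0R
  have h3 : Real.exp (-(δ / 2 * (L * Real.log b))) / |(k : ℝ)| <
      |ξ * ∑ j, (lam j : ℝ) * (b : ℝ) ^ (L + (j : ℕ) * β) - P| := by
    rw [div_lt_iff₀ hkpos]; linarith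
  refine lt_of_le_of_lt ?_ h3
  rw [Real.rpow_def_of_pos hb0, le_div_iff₀ hkpos]
  calc Real.exp (Real.log b * -(δ * L)) * |(k : ℝ)| =
        Real.exp (Real.log b * -(δ * L)) * Real.exp (Real.log |(k : ℝ)|) := by
        rw [Real.exp_log hkpos]
    _ = Real.exp (Real.log b * -(δ * L) + Real.log |(k : ℝ)|) := by rw [Real.exp_add]
    _ ≤ Real.exp (-(δ / 2 * (L * Real.log b))) := by
      apply Real.exp_le_exp.mpr
      nlinarith

end Pool.Agent.H393R2
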